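import Pool.Agent.Lib.MP_9f2731_nt.GP.Dhj.All
import Pool.Agent.Lib.MP_9f2731_nt.CG.Mf.All
import Pool.Agent.Lib.MP_9f2731_nt.CG.Mv.All
import Pool.Agent.Lib.MP_9f2731_nt.CG.Bq.All
import Pool.Agent.Lib.BE.A.ExC
import Pool.Agent.Lib.BE.A.LoAC
import Pool.Agent.Lib.BE.A.LoBC
import Pool.Agent.Lib.BE.A.DnC
import Pool.Agent.Lib.BE.A.PeC
import Pool.Agent.Lib.BE.A.S1C
import Pool.Agent.Lib.BE.A.RhC
import Pool.Agent.Lib.BE.A.CoC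
import Pool.Agent.Lib.BE.A.SpC
import Pool.Agent.Lib.BE.A.S2C
import Pool.Agent.Lib.BE.A.ErC
import Pool.Agent.Lib.BE.B.MaC
import Pool.Agent.Lib.BE.B.MbC
import Pool.Agent.Lib.BE.B.MhC
import Pool.Agent.Lib.BE.B.PsC
import Pool.Agent.Lib.BE.B.UpC
import Pool.Agent.Lib.BE.B.PdC
import Pool.Agent.Lib.BE.B.PrC
import Pool.Agent.Lib.BE.B.TuC
import Pool.Agent.Lib.BE.B.TnC
import Pool.Agent.Lib.BE.B.BiC
import Pool.Agent.Lib.BE.B.CmC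
import Pool.Agent.Lib.BE.C.ApC
import Pool.Agent.Lib.BE.C.BtC
import Pool.Agent.Lib.BE.C.BhC
import Pool.Agent.Lib.BE.C.BsC
import Pool.Agent.Lib.BE.C.BfC
import Pool.Agent.Lib.BE.E.HsC
import Pool.Agent.Lib.BE.E.ApP
import Pool.Agent.Lib.BE.E.AdC
import Pool.Agent.Lib.BE.E.VwC
import Pool.Agent.Lib.BE.E.StE
import Pool.Agent.Lib.BE.E.ObC
import Pool.Agent.Lib.BE.E.LnC
import Pool.Agent.Lib.BE.E.FiC

/-!
PROJECT BE (note 5284, helper60): composition of the modules.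
-/

set_option autoImplicit false

namespace Pool.Agent.Lib.BE

open Pool.Agent.Lib.BV
open Pool.Agent.Lib.MP_9f2731_nt.GP
open Pool.Agent.Lib.MP_9f2731_nt.QL
open Pool.Agent.Lib.MP_9f2731_nt.QL.Pw
open Pool.Agent.Lib.MP_9f2731_nt.CG

/-! ### Part A -/

theorem aExC : ExCStmt := tExC Ma.pUbF Pool.Agent.Lib.MP_9f2731_nt.GP.Sv.pCrt
theorem aPeC : PeCStmt := tPeC tDnC
theorem aS1C : S1CStmt := tS1C aExC tLoAC Ma.aSuF aPeC
theorem aRhC : RhCStmt := tRhC Pool.Agent.Lib.MP_9f2731_nt.GP.Sv.pCrt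
theorem aSpC : SpCStmt := tSpC (tCoC aRhC) aExC
theorem aS2C : S2CStmt := tS2C tLoBC Ma.aSuF aSpC Ma.pErF
theorem aErC : ErCStmt := tErC Pool.Agent.Lib.MP_9f2731_nt.GP.Rom.pExp Pool.Agent.Lib.MP_9f2731_nt.GP.Rom.pTot

/-! ### Part B -/

theorem aMaC : MaCStmt := tMaC aS1C Ma.aPfB Mf.aMfT
theorem aMbC : MbCStmt := tMbC aS2C aErC Ma.aPfB Ma.aAfP Mf.aMfT
theorem aUpC : UpCStmt := tUpC aMaC Ma.aPfB Ma.aAfP tPsC
theorem aPrC : PrCStmt := tPrC aMbC (tPdC tPsC) tPsC Ma.aPfB Ma.aAfP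
theorem aTnC : TnCStmt := tTnC Mv.pIpV Mv.pSuV Mv.pMkV tTuC
theorem aCmC : BinStmt := tCmC aTnC tBiC aMaC aMbC tMhC aUpC aPrC

/-! ### Part C -/

theorem aApC : ApCStmt := tApC Bq.aSwQ aPnt
theorem aBsC : BsCStmt := tBsC Bq.aBqR Bq.aBqL (tBhC Bq.aTys) tBtC aTot
theorem aBfC : BvqCStmt := tBfC Bq.aExG aApC aBsC

/-! ### Part E -/

theorem aStE : StEStmt := tStE tVwC (tAdC tApP)
theorem aObC : ObStmt := tObC aCmC aBfC aStE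

/-- THEOREM BE -/
theorem beAll : BeStmt := tFiC Dhj.dhjAll aObC tHsC tLnC

end Pool.Agent.Lib.BE
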