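import Pool.Agent.Lib.BE.SpecG

/-!
PROJECT BE: the hand-in forms of THEOREM BE for pairs (general form and chains).
-/

set_option autoImplicit false

namespace Pool.Agent.Lib.BE

open Finset

/-- the general form for pairs -/
theorem handInPairsGeneral (hB : BePStmt) (k : ℕ) (hk : 1 ≤ k) :
    ∃ r : ℕ, ∀ (f : Fin r → Fin k → ℕ) (M : ℕ) (S : Set (ℕ × ℤ)),
      (∀ t j, 1 ≤ f t j) → 1 ≤ M → (∀ s ∈ S, 1 ≤ s.1) → ((fun s : ℕ × ℤ => (s.2 : ℚ) / s.1) '' S).Infinite →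
      (∀ s ∈ S, IsCoprime (M : ℤ) s.2 ∧ (∀ t j, IsCoprime (f t j : ℤ) s.2) ∧ ∀ s' ∈ S, IsCoprime (s'.1 : ℤ) s.2) →
      ∃ (T : Finset (Fin r)) (m : Fin k → ℕ) (h : Fin k → ℤ), T.Nonempty ∧ (∀ j, (m j, h j) ∈ S) ∧
        (∀ i j, i ≠ j → (m i : ℤ) * h j ≠ m j * h i) ∧
        {n : ℕ | M ∣ n ∧ ∀ j, ∃ p : ℕ, p.Prime ∧
          (p : ℤ) = (∏ t ∈ T, (f t j : ℤ)) * m j * n + h j}.Infinite := by
  obtain ⟨r, hr⟩ := hB k hk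
  refine ⟨r, fun f M S hf hM hS1 hS hc => ?_⟩
  obtain ⟨T, s, hT, hs, hd, hn⟩ := hr f M S hf hM hS1 hS hc
  refine ⟨T, fun j => (s j).1, fun j => (s j).2, hT, fun j => hs j, hd, Set.infinite_of_forall_exists_gt fun N => ?_⟩
  obtain ⟨n, h1, h2, h3⟩ := hn (N + 1)
  refine ⟨n, ⟨h2, fun j => ?_⟩, by omega⟩
  obtain ⟨p, hp, hp'⟩ := h3 j
  refine ⟨p, hp, ?_⟩
  rw [hp', Nat.cast_mul, Nat.cast_prod]
  ring

/-- chains `p i = R ^ (i - 1) * m i * n + h i`, where R is a product of different ones of the g t -/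
theorem handInPairsChains (hB : BePStmt) (k : ℕ) (hk : 1 ≤ k) :
    ∃ r : ℕ, ∀ (g : Fin r → ℕ) (M : ℕ) (S : Set (ℕ × ℤ)),
      (∀ t, 1 ≤ g t) → 1 ≤ M → (∀ s ∈ S, 1 ≤ s.1) → ((fun s : ℕ × ℤ => (s.2 : ℚ) / s.1) '' S).Infinite →
      (∀ s ∈ S, IsCoprime (M : ℤ) s.2 ∧ (∀ t, IsCoprime (g t : ℤ) s.2) ∧ ∀ s' ∈ S, IsCoprime (s'.1 : ℤ) s.2) →
      ∃ (T : Finset (Fin r)) (R : ℕ) (m : ℕ → ℕ) (h : ℕ → ℤ), T.Nonempty ∧ R = ∏ t ∈ T, g t ∧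
        (∀ i, 1 ≤ i → i ≤ k → (m i, h i) ∈ S) ∧
        (∀ i j, 1 ≤ i → i < j → j ≤ k → (m i : ℤ) * h j ≠ m j * h i) ∧
        {n : ℕ | M ∣ n ∧ ∀ i, 1 ≤ i → i ≤ k → ∃ p : ℕ, p.Prime ∧
          (p : ℤ) = (R : ℤ) ^ (i - 1) * m i * n + h i}.Infinite := by
  obtain ⟨r, hr⟩ := handInPairsGeneral hB k hk
  refine ⟨r, fun g M S hg hM hS1 hS hc => ?_⟩
  obtain ⟨T, m, h, hT, hm, hd, hn⟩ := hr (fun t j => g t ^ (j : ℕ)) M S (fun t j => Nat.one_le_pow _ _ (hg t)) hM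
    hS1 hS (fun x hx => ⟨(hc x hx).1, fun t j => by
      push_cast
      exact ((hc x hx).2.1 t).pow_left, (hc x hx).2.2⟩)
  have hP : ∀ j : Fin k, ∏ t ∈ T, ((g t ^ (j : ℕ) : ℕ) : ℤ) = ((∏ t ∈ T, g t : ℕ) : ℤ) ^ (j : ℕ) := by
    intro j
    rw [Nat.cast_prod, ← Finset.prod_pow]
    exact Finset.prod_congr rfl fun t _ => by push_cast; rfl
  simp only [hP] at hn
  refine ⟨T, ∏ t ∈ T, g t, fun i => if hlt : i - 1 < k then m ⟨i - 1, hlt⟩ else 0,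
    fun i => if hlt : i - 1 < k then h ⟨i - 1, hlt⟩ else 0, hT, rfl, ?_, ?_, ?_⟩
  · intro i h1 h2
    have hlt : i - 1 < k := by omega
    simp only [dif_pos hlt]
    exact hm _
  · intro i j h1 h2 h3
    have e1 : i - 1 < k := by omega
    have e2 : j - 1 < k := by omega
    simp only [dif_pos e1, dif_pos e2]
    refine hd _ _ ?_
    intro he
    simp only [Fin.mk.injEq] at he
    omega
  · refine hn.mono ?_
    rintro n ⟨hMn, hnp⟩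
    refine ⟨hMn, fun i h1 h2 => ?_⟩
    have hlt : i - 1 < k := by omega
    obtain ⟨p, hp, hp'⟩ := hnp ⟨i - 1, hlt⟩
    refine ⟨p, hp, ?_⟩
    simp only [dif_pos hlt]
    exact hp'

end Pool.Agent.Lib.BE
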