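import Pool.Agent.Lib.BE.All
import Pool.Agent.Lib.BE.G.StG
import Pool.Agent.Lib.BE.G.ObG
import Pool.Agent.Lib.BE.G.LnG
import Pool.Agent.Lib.BE.G.DkG
import Pool.Agent.Lib.BE.G.HsP
import Pool.Agent.Lib.BE.G.FiP
import Pool.Agent.Lib.BE.HandInP

/-!
PROJECT BE (helper60, helper92): composition of part G.
-/

set_option autoImplicit false

namespace Pool.Agent.Lib.BE

theorem aObG : ObGStmt := tObG aCmC aBfC tVwC (tStG tVwC)

/-- the line theorem for arbitrary admissible families -/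
theorem dkAll : DkStmt := tDkG (tLnG Pool.Agent.Lib.MP_9f2731_nt.GP.Dhj.dhjAll aObG)

/-- THEOREM BE for pairs -/
theorem bePAll : BePStmt := tFiP Pool.Agent.Lib.MP_9f2731_nt.GP.Dhj.dhjAll aObC tHsP tLnC

end Pool.Agent.Lib.BE
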