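import Pool.Agent.Lib.BE.AllU
import Pool.Agent.Lib.BE.U.LnM
import Pool.Agent.Lib.BE.U.DkM

/-!
PROJECT BU (helper92): composition, the line theorem with m primes in each of the k bins of the line.
-/

set_option autoImplicit false

namespace Pool.Agent.Lib.BE

/-- the line theorem with m primes in each bin of the line -/
theorem dkMAll : DkMStmt := tDkM (tLnM Pool.Agent.Lib.MP_9f2731_nt.GP.Dhj.dhjAll aObW)

end Pool.Agent.Lib.BE
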