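import Pool.Agent.Lib.BE.U.ObW

/-!
PROJECT OP (helper89): the proportion 1/58 instead of 10^(-6) in the bins (clusters: 1/60).

RULES. Module X: file Pool/Agent/Lib/BE/P/X.lean, first line `import Pool.Agent.Lib.BE.SpecP`, auxiliary lemmas private with
names starting with X_, final theorem `theorem tX : XStmt`; the statements listed under Uses are HYPOTHESES of tX, in this order.
-/

set_option autoImplicit false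

namespace Pool.Agent.Lib.BE

open Finset
open Pool.Agent.Lib.MP_9f2731_nt.GP
open Pool.Agent.Lib.MP_9f2731_nt.GP.Sv
open Pool.Agent.Lib.MP_9f2731_nt.QL
open Pool.Agent.Lib.MP_9f2731_nt.QL.Sw
open Pool.Agent.Lib.MP_9f2731_nt.CG
open Pool.Agent.Lib.MP_9f2731_nt.CG.Ma
open Pool.Agent.Lib.MP_9f2731_nt.CG.Mf

/-- Module MhP (port of BE/B/MhC.lean). Uses: nothing. Proof. As tMhC with dlV V = dlV (V p0)/(1 - 1/p0): (1/20)(1 - 1/p0) - o(1). -/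
def MhPStmt : Prop := ∃ X0 : ℝ, ∀ (X w V p0 K : ℕ) (a c : Fin K → ℕ) (l : Fin K), X0 ≤ X → 100 ≤ p0 →
  StC X w V p0 a c → BvC X p0 (a l) (c l) →
  X / 21 * GG (V * p0) X ^ K ≤
    ((BpC X (a l) (c l)).card : ℝ) * (Real.log (RR X) ^ 4 * GG (V * p0) X ^ (K - 1))

/-- Module BiP (port of BE/R/BiR.lean). Uses: nothing. Proof. With N the number of the t with b ∈ B i t and τ = 3/(8 n α), 1[N ≥ 1] ≥ 2 τ N - τ^2 N^2, the mass of a bin is ≥ Z T (1/n) (∑_t d i t) (3/8 - (3/4) e0 - 9/(64 n α)) - errors ≥ Z T 0.0178 > Z T/58. -/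
def BiPStmt : Prop := ∀ (m n : ℕ) (𝓑 𝓡 : Finset ℕ) (W : ℕ → ℝ) (B : Fin m → Fin n → Finset ℕ)
  (d : Fin m → Fin n → ℝ) (Z T α ε e0 : ℝ),
  1 ≤ m → 1 ≤ n → 0 < Z → 0 < T → 0 < α → 0 ≤ e0 → e0 ≤ 1 / 1000 → 1000 ≤ n * α → (∀ b, 0 ≤ W b) →
  𝓡 ⊆ 𝓑 → (∀ i t, B i t ⊆ 𝓑) → (∀ i t, 1 / 21 ≤ d i t) → ε = T / (10 ^ 6 * n ^ 2) →
  ∑ b ∈ 𝓑, W b ≤ Z * (T + ε) → ∑ b ∈ 𝓑 \ 𝓡, W b ≤ Z * (T / 10 ^ 8) →
  (∀ i t, Z * (d i t * ((1 - e0) * (α * T)) - ε) ≤ ∑ b ∈ B i t, W b ∧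
    ∑ b ∈ B i t, W b ≤ Z * (d i t * (α * T) + ε)) →
  (∀ i t t', t ≠ t' → ∑ b ∈ B i t ∩ B i t', W b ≤ Z * (d i t * (8 / 3 * (α ^ 2 * T)) + ε)) →
  ∃ b ∈ 𝓡, (m : ℝ) / 58 ≤ ((univ.filter (fun i : Fin m => ∃ t, b ∈ B i t)).card : ℝ)

open Classical in
/-- BinUStmt with the proportion 1/58 -/
def BinPStmt : Prop := ∃ κ0 : ℝ, 0 < κ0 ∧ ∀ m : ℕ, 1 ≤ m → ∃ n : ℕ, 1 ≤ n ∧ ∃ (κ : ℝ) (w1 : ℕ) (X0 : ℝ), 0 < κ ∧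
  ∀ (X w V p0 : ℕ) (a c : Fin (m * n) → ℕ), X0 ≤ X → w1 < p0 → StC X w V p0 a c →
  (∀ l, BvC X p0 (a l) (c l)) → (∀ l, (c l).Coprime V ∧ ¬ p0 ∣ a l) → (∀ l, a l * X + c l ≤ X ^ 2) →
  ∃ b ∈ Icc 1 X, (∀ l, Rgh ((X : ℝ) ^ κ) (a l * b + c l)) ∧
    (∀ i : Fin m, ∃ s : Fin n,
      Rgh ((X : ℝ) ^ κ0) (a (finProdFinEquiv (i, s)) * b + c (finProdFinEquiv (i, s)))) ∧
    (m : ℝ) / 58 ≤ ((univ.filter (fun i : Fin m => ∃ t : Fin n,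
      b ∈ BpC X (a (finProdFinEquiv (i, t))) (c (finProdFinEquiv (i, t))))).card : ℝ)

/-- Module CmP (port of BE/U/CmU.lean). Uses: TnU, BiP, MaR, MaC, MbC, MhP, UpC, PrC, MgR, EiU. -/
def CmPStmt : Prop := BinPStmt

open Classical in
/-- ObWStmt with the proportion 1/58 (module ObP, port of BE/U/ObW.lean; Uses: BinPStmt, BvqCStmt, VwC, StG) -/
def ObPStmt : Prop := ∃ C0 : ℕ, ∀ m : ℕ, 1 ≤ m → ∃ n C : ℕ, 1 ≤ n ∧ ∀ (M' : Fin (m * n) → ℕ) (h : Fin (m * n) → ℤ)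
  (cl : ℕ → ℕ) (P : ℕ), (∀ l, 1 ≤ M' l) →
  (∀ p : ℕ, p.Prime → ∀ l, ¬ (p : ℤ) ∣ (M' l : ℤ) * cl p + h l) →
  (∀ i j, i ≠ j → (M' i : ℤ) * h j ≠ M' j * h i) →
  ∃ X0 : ℝ, ∀ X : ℕ, X0 ≤ X → ∃ N : ℕ, (X : ℝ) ^ ((1 : ℝ) / 5) ≤ N ∧
    (∀ p : ℕ, p.Prime → p ≤ P → N ≡ cl p [MOD p]) ∧
    (∀ l, ∃ q : ℕ, 1 ≤ q ∧ (q : ℤ) = (M' l : ℤ) * N + h l ∧ ∀ p : ℕ, p.Prime → p ∣ q → q ≤ p ^ C) ∧
    (∀ i : Fin m, ∃ t : Fin n, ∃ q : ℕ, 1 ≤ q ∧ (q : ℤ) = (M' (finProdFinEquiv (i, t)) : ℤ) * N +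
      h (finProdFinEquiv (i, t)) ∧ ∀ p : ℕ, p.Prime → p ∣ q → q ≤ p ^ C0) ∧
    (m : ℝ) / 58 ≤ ((univ.filter (fun i : Fin m => ∃ t : Fin n, ∃ p : ℕ, p.Prime ∧
      (p : ℤ) = (M' (finProdFinEquiv (i, t)) : ℤ) * N + h (finProdFinEquiv (i, t)))).card : ℝ)

end Pool.Agent.Lib.BE
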