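import Pool.Agent.Lib.BE.AllU
import Pool.Agent.Lib.BE.SpecP
import Pool.Agent.Lib.BE.P.MhP
import Pool.Agent.Lib.BE.P.BiP
import Pool.Agent.Lib.BE.P.CmP
import Pool.Agent.Lib.BE.U.ObP
import Pool.Agent.Lib.BE.U.ChQ

/-!
PROJECT OP (helper89, helper60): composition, the proportion 1/58 in the bins, 1/60 for clusters of m primes.
-/

set_option autoImplicit false

namespace Pool.Agent.Lib.BE

open Pool.Agent.Lib.MP_9f2731_nt.GP
open Pool.Agent.Lib.MP_9f2731_nt.QL
open Pool.Agent.Lib.MP_9f2731_nt.CG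

theorem aCmP : BinPStmt := tCmP aTnU tBiP aMaR aMaC aMbC tMhP aUpC aPrC aMgR aEiU

theorem aObP : ObQStmt 58 := tObP 58 (by norm_num) aCmP aBfC tVwC (tStG tVwC)

/-- systems a_j u_(j,i) n + h_(j,i), clusters of m primes at a proportion 1/60 of the places -/
theorem chQAll : ChQStmt 60 :=
  tChQ 58 60 1740 (by norm_num) (by norm_num) (by norm_num) aObP tHsP tApP (MP_9f2731_nt.SS.pSzm Dhj.dhjAll)

end Pool.Agent.Lib.BE
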