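import Pool.Agent.Lib.BE.AllU
import Pool.Agent.Lib.BE.P.MhP
import Pool.Agent.Lib.BE.P.BiP
import Pool.Agent.Lib.BE.P.CmP
import Pool.Agent.Lib.BE.U.ObP
import Pool.Agent.Lib.BE.U.LnP
import Pool.Agent.Lib.BE.U.DkP

/-!
PROJECT BU, OP (helper92): composition, the line theorem with m primes in each bin of the line and in at least
k^r/60 bins.
-/

set_option autoImplicit false

namespace Pool.Agent.Lib.BE

open Pool.Agent.Lib.MP_9f2731_nt.GP
open Pool.Agent.Lib.MP_9f2731_nt.GP.Sv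
open Pool.Agent.Lib.MP_9f2731_nt.QL
open Pool.Agent.Lib.MP_9f2731_nt.QL.Sw
open Pool.Agent.Lib.MP_9f2731_nt.CG

theorem plCmP : BinPStmt := tCmP aTnU tBiP aMaR aMaC aMbC tMhP aUpC aPrC aMgR aEiU

theorem plObP : ObQStmt 58 := tObP 58 (by norm_num) plCmP aBfC tVwC (tStG tVwC)

/-- the line theorem with m primes in each bin of the line -/
theorem dkPAll : DkPStmt := tDkP (tLnP Pool.Agent.Lib.MP_9f2731_nt.GP.Dhj.dhjAll plObP)

end Pool.Agent.Lib.BE
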