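import Pool.Agent.Lib.BE.AllG
import Pool.Agent.Lib.BE.R.MaR
import Pool.Agent.Lib.BE.R.McR
import Pool.Agent.Lib.BE.R.MgR
import Pool.Agent.Lib.BE.R.BiR
import Pool.Agent.Lib.BE.R.CmR
import Pool.Agent.Lib.BE.R.ObR
import Pool.Agent.Lib.BE.R.LnR
import Pool.Agent.Lib.BE.R.DkR
import Pool.Agent.Lib.BE.R.ChR

/-!
PROJECT BE (helper60, helper92): composition of part R (almost primes at all places).
-/

set_option autoImplicit false

namespace Pool.Agent.Lib.BE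

open Pool.Agent.Lib.MP_9f2731_nt.GP
open Pool.Agent.Lib.MP_9f2731_nt.QL
open Pool.Agent.Lib.MP_9f2731_nt.CG

theorem aMgR : MgRStmt :=
  tMgR (tMaR aS1C Ma.aPfB Mf.aMfT) (tMcR aS1C Ma.aPfB Ma.aAfP Mf.aMfT) Mf.pMfD

theorem aCmR : BinRStmt := tCmR aTnC tBiR aMaC aMbC tMhC aUpC aPrC aMgR

theorem aObR : ObRStmt := tObR aCmR aBfC tVwC (tStG tVwC)

theorem aLnR : LineRStmt := tLnR Dhj.dhjAll aObR

/-- the line theorem with almost primes -/
theorem dkRAll : DkRStmt := tDkR aLnR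

/-- chains with ratio exactly g -/
theorem chAll : ChStmt := tChR aLnR tHsP tApP

end Pool.Agent.Lib.BE
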