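import Pool.Agent.Lib.BE.SpecR

/-!
PROJECT BU (note 5449, helper60): in every bin an almost prime with an absolute number of prime factors.

RULES. Module X: file Pool/Agent/Lib/BE/U/X.lean, first line `import Pool.Agent.Lib.BE.SpecU` (plus already proved files of
CG/Ma, CG/Mf, CG/Mv, MP_aa9ae4_nt if a private lemma is needed; copy private lemmas instead if possible), then `set_option
autoImplicit false`, `namespace Pool.Agent.Lib.BE`, `open Finset`, `open Pool.Agent.Lib.MP_9f2731_nt.GP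
Pool.Agent.Lib.MP_9f2731_nt.GP.Sv Pool.Agent.Lib.MP_9f2731_nt.QL Pool.Agent.Lib.MP_9f2731_nt.QL.Sw
Pool.Agent.Lib.MP_9f2731_nt.CG Pool.Agent.Lib.MP_9f2731_nt.CG.Ma Pool.Agent.Lib.MP_9f2731_nt.CG.Mf`, auxiliary lemmas private
with names starting with X_, final theorem `theorem tX : XStmt`; the statements listed under Uses are HYPOTHESES of tX, in
this order: `theorem tX (h1 : AStmt) (h2 : BStmt) : XStmt`. All modules are independent.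
Notation of the proofs: R = RR X = X^(1/5), W = V p0, G = GG W X = (log R)^3/dlV W, q = qU X, g = gU W X t u, tau = TTF(q, g)(1, 1),
y = R^t, z = R^u, N(n) = NU W X t u n = the number of the primes in (y, z] not dividing W which divide n, L_j = a j b + c j,
A_f(n) = AF W R f n, Z = X G^K.
-/

set_option autoImplicit false

namespace Pool.Agent.Lib.BE

open Finset
open Pool.Agent.Lib.MP_9f2731_nt.GP
open Pool.Agent.Lib.MP_9f2731_nt.GP.Sv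
open Pool.Agent.Lib.MP_9f2731_nt.QL
open Pool.Agent.Lib.MP_9f2731_nt.QL.Sw
open Pool.Agent.Lib.MP_9f2731_nt.CG
open Pool.Agent.Lib.MP_9f2731_nt.CG.Ma
open Pool.Agent.Lib.MP_9f2731_nt.CG.Mf

/-- the profile `32 (1/4 - t)_+`, times x -/
noncomputable def ph (x : ℝ) : Pf where
  co := ![16 * x, 0, 0]
  be := ![1 / 4, 0, 0]

/-- the weight function q -/
noncomputable def qU (X : ℕ) : ℕ → ℝ := pfn (ph 1) (RR X)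

open Classical in
/-- the primes in (R^t, R^u] not dividing W which divide d -/
noncomputable def PrU (W X : ℕ) (t u : ℝ) (d : ℕ) : Finset ℕ :=
  (QsV W ((RR X) ^ u)).filter (fun p : ℕ => (RR X) ^ t < (p : ℝ) ∧ p ∣ d)

/-- their number -/
noncomputable def NU (W X : ℕ) (t u : ℝ) (n : ℕ) : ℝ := ((PrU W X t u n).card : ℝ)

/-- the weight function g, with A_g = A_q (1 - N) -/
noncomputable def gU (W X : ℕ) (t u : ℝ) (d : ℕ) : ℝ :=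
  qU X d - ∑ p ∈ PrU W X t u d, (qU X d - qU X (d / p))

/-- the mean value of A_q A_g -/
noncomputable def tau (W X : ℕ) (t u : ℝ) : ℝ := TTF W (RR X) (qU X) (gU W X t u) 1 1

/-- n has no prime factor ≤ R^t outside of W -/
def Yr (W X : ℕ) (t : ℝ) (n : ℕ) : Prop := ∀ p ∈ QsV W ((RR X) ^ t), ¬ p ∣ n

open Classical in
/-- the minorant -/
noncomputable def rhoU (W X : ℕ) (t u : ℝ) (n : ℕ) : ℝ :=
  if Yr W X t n then AF W (RR X) (qU X) n * AF W (RR X) (gU W X t u) n / Real.log (RR X) ^ 4 else 0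

/-- the sieve weight without the forms in D -/
noncomputable def UD (W X : ℕ) {K r : ℕ} (P : Fin r → Pf) (𝒜 : Finset (Fin K → Fin r))
    (a c : Fin K → ℕ) (D : Finset (Fin K)) (b : ℕ) : ℝ :=
  ∑ v ∈ 𝒜, (∏ j ∈ D, im (P (v j))) *
    ∏ j ∈ univ \ D, AF W (RR X) (pfn (P (v j)) (RR X)) (a j * b + c j)

/-- its quadratic form -/
noncomputable def JD {K r : ℕ} (P : Fin r → Pf) (𝒜 : Finset (Fin K → Fin r)) (D : Finset (Fin K)) : ℝ :=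
  ∑ v ∈ 𝒜, ∑ u ∈ 𝒜, (∏ j ∈ D, im (P (v j)) * im (P (u j))) * ∏ j ∈ univ \ D, ip (P (v j)) (P (u j))

/-! ### One variable -/

/-- Module PhU (50 lines; compare BE/B/PsC.lean). Uses: nothing. Proof. Sums over Fin 3; Ee (1/4) (1/4) = 1/192, Ee (1/4) 0 = 0. qU X n = 16 cw (R^(1/4)) n; 0 ≤ log (R^(1/4)/n) ≤ (log R)/4 for 1 ≤ n ≤ R^(1/4). -/
def PhUStmt : Prop := (∀ x y : ℝ, im (ph x) = x ∧ ip (ph x) (ph y) = 16 / 3 * (x * y) ∧ (ph x).M = 16 * |x| ∧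
    Pok (ph x)) ∧
  ∀ X : ℕ, 1 < RR X → qU X 1 = Real.log (RR X) ^ 2 ∧ (∀ n, 0 ≤ qU X n ∧ qU X n ≤ Real.log (RR X) ^ 2) ∧
    Sup ((RR X) ^ ((1 : ℝ) / 4)) (qU X)

/-- Module GaU (150 lines). Uses: PhU. Proof. (1) A_f(n) is the sum of μ(d) f(d) over the d ∣ PqV W R with d ∣ n. For p ∈ PrU n (⊆ QsV W R, because R^u ≤ R) and such a d let m = lcm(p, d): either p ∣ d and m = d, or p ∤ d, m = p d, μ(d) = -μ(m), d = m/p. So for each m ∣ PqV, m ∣ n and p ∈ PrU n with p ∣ m (equivalently p ∈ PrU m, as m ∣ n) the two d contribute μ(m) (q(m) - q(m/p)), and N(n) A_q(n) = ∑_m μ(m) ∑_(p ∈ PrU m) (q(m) - q(m/p)) = A_q(n) - A_g(n). (For fixed p pair the divisors d and p d of PqV, p ∤ d; compare CG/Ma/AfP.lean.)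
(2) n = 0: q 0 = 0. For n > R^(1/2): q n = 0, and n/p ≥ n R^(-u) > R^(1/4) for p ∈ PrU n. (3) 0 ≤ q ≤ (log R)^2; if n > R^(1/2) or n = 0 it is 0, otherwise the product of the p ∈ PrU n divides n ≤ R^(1/2) and each p is > R^t, so there are at most 1/(2t) of them. -/
def GaUStmt : Prop := ∀ t u : ℝ, 0 < t → t ≤ u → u ≤ 1 / 4 → ∀ X W : ℕ, 1 < RR X → 1 ≤ W →
  (∀ n, AF W (RR X) (gU W X t u) n = AF W (RR X) (qU X) n * (1 - NU W X t u n)) ∧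
  Sup ((RR X) ^ ((1 : ℝ) / 2)) (gU W X t u) ∧
  ∀ n, |gU W X t u n| ≤ (1 + 1 / t) * Real.log (RR X) ^ 2

/-- Module GtU (200 lines; compare CG/Ma/TTr.lean and CG/Mf/MfT.lean). Uses: CG.Ma.TmAStmt, CG.Ma.TmBStmt, CG.Ma.HwTStmt, CG.Ma.M2TStmt, CG.Ma.MRFStmt, PhU. Proof. W = V p0, δ = dlV W, Tame W lam with lam = 4 (1 + log V)^2 (TmA, TmB), Tame (W p) (2 lam) for p ∤ W, dlV (W p) ≥ δ/2. For V' = W or W p and every n, by MRF and M2T (q = 16 cw (R^(1/4))): |MMF V' R q n| ≤ C1 ((log R)/δ + lam^2) =: E.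
MMF W R g n = MMF q n - ∑_(p ∈ Q) I_p, Q = the primes in (R^t, R^u] not dividing W, I_p = ∑ over the u' ∣ PqV W R with p ∣ u' n of (μ(u')/u') (q(u' n) - q(u' n/p)). If p ∣ n: I_p = MMF q n - MMF q (n/p), |I_p| ≤ 2 E, and it is 0 for n > R^(1/2) (then n/p > R^(1/4)) and for n = 0; so (n ≤ R^(1/2)) at most 1/(2t) primes p ∣ n matter. If p ∤ n: u' = p v, v ∣ PqV (W p) R, μ(u')/u' = -μ(v)/(p v), I_p = (1/p) (MMF (W p) R q n - MMF (W p) R q (p n)), |I_p| ≤ 2 E/p.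
∑_(R^t < p ≤ R) 1/p ≤ (1/(t log R)) ∑_(p ≤ R) (log p)/p ≤ (1/(t log R)) (log R + 2) ≤ 3/t (compare CG/Mf/MfD.lean). So |MMF g n| ≤ C(t) E, and |TTF| ≤ hwV W 0 R E C(t) E, hwV W 0 R ≤ δ log R + C2 lam (HwT, and 1/δ ≤ lam): ≤ C(t) ((log R)^3/δ + lam^6 (1 + log R)^2 ..), and lam^6 (1 + log R)^2 ≤ C G as in MfT (hlog of StC). -/
def GtUStmt : Prop := ∀ t u : ℝ, 0 < t → t ≤ u → u ≤ 1 / 4 → ∃ C X0 : ℝ, 0 < C ∧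
  ∀ (X w V p0 K : ℕ) (a c : Fin K → ℕ), X0 ≤ X → StC X w V p0 a c → ∀ b b' : ℕ,
  |TTF (V * p0) (RR X) (qU X) (gU (V * p0) X t u) b b'| ≤ C * GG (V * p0) X

/-- Module TaU (150 lines). Uses: S1C, MaC, McR, CG.Mf.MfDStmt, GaU, GtU, PhU. Proof. C1 from McR and X1 from MaC (η = 1/100) for K = 1, r = 1, P = fun _ => ph 1, bd = fun _ => 1/4, 𝒜 = univ (one element; Iq = ip = 16/3, WWC = A_q(L)), C2 from MfD: u ≤ 1/4 with C1 C2 (u/5)^2 ≤ 1/2 (ABSOLUTE). Given t; l = the first index (1 ≤ K); the form a l, c l alone (Fin 1) satisfies StC.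
S1C with n = 1, σ = Fin 1, f (0, true) = q, f (0, false) = g, y = R^(1/4), R^(1/2), B = (1 + 1/t) (log R)^2, T = C G (GtU), P0 = 1: |∑_(b ≤ X) A_q A_g - X tau| ≤ X C G (exp (C'/w) - 1) + R^(3/4) B^2 ≤ X G/100. A_q A_g = A_q^2 - N A_q^2 (GaU). ∑ A_q^2 ≥ X G (16/3 - 1/100) - X^(3/5) (MaC). ∑_b N A_q^2 = ∑_(p ∈ QsV W (R^u), p > R^t) ∑_(b : p ∣ L) A_q^2
≤ ∑_p ((X/p) G C1 ((log p/log R)^2 + 1/√(log X)) + X^(3/5)) (McR) ≤ X G C1 (C2 (u/5)^2 + η) + X^(1/20) X^(3/5) (MfD with κ = u/5, R^u = X^(u/5)) ≤ X G (1/2 + 1/100) + .. So tau ≥ G (16/3 - 1/2 - 1/10) ≥ 4 G. Upper bound: GtU at (1, 1). -/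
def TaUStmt : Prop := ∃ u : ℝ, 0 < u ∧ u ≤ 1 / 4 ∧ ∀ t : ℝ, 0 < t → t ≤ u → ∃ C X0 : ℝ, 0 < C ∧
  ∀ (X w V p0 K : ℕ) (a c : Fin K → ℕ), X0 ≤ X → StC X w V p0 a c → 1 ≤ K →
  4 * GG (V * p0) X ≤ tau (V * p0) X t u ∧ tau (V * p0) X t u ≤ C * GG (V * p0) X

/-- Module SgU (60 lines). Uses: GaU. Proof. rhoU is 0 unless Yr W X t n. Then with p ∈ QsV W (R^u), p ∣ n (exists by ¬ Yr for u): p > R^t (otherwise p ∈ QsV W (R^t)), so p ∈ PrU n, N(n) ≥ 1 and A_q A_g = A_q^2 (1 - N) ≤ 0. -/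
def SgUStmt : Prop := ∀ t u : ℝ, 0 < t → t ≤ u → u ≤ 1 / 4 → ∀ X W n : ℕ, 1 < RR X → 1 ≤ W →
  ¬ Yr W X u n → rhoU W X t u n ≤ 0

/-- Module DgU (120 lines; compare CG/Mf/MfE.lean). Uses: PhU. Proof. C = 4^(10/t) (real power, or 4^⌈10/t⌉). The product of the p ∈ PrU n divides n ≤ X^2 and each is > R^t = X^(t/5), so their number is at most 10/t. If Yr W X t n, every prime p ∈ QsV W R dividing n is > R^t, so there are at most 10/t of them; A_q(n) is a sum over the d ∣ PqV W R with d ∣ n, at most 2^(10/t) of them (products of these primes), |μ(d) q(d)| ≤ (log R)^2. -/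
def DgUStmt : Prop := ∀ t u : ℝ, 0 < t → t ≤ u → u ≤ 1 / 4 → ∃ C : ℝ, 0 < C ∧ ∀ X W n : ℕ, 1 < RR X → 1 ≤ W →
  1 ≤ n → n ≤ X ^ 2 → NU W X t u n ≤ 10 / t ∧
    (Yr W X t n → AF W (RR X) (qU X) n ^ 2 ≤ C * Real.log (RR X) ^ 4)

/-! ### Several forms -/

/-- Module JdU (80 lines). Uses: nothing. Proof. univ \ ∅ = univ, univ \ {l} = univ.erase l, univ \ {l, j} = (univ.erase l).erase j; prod_singleton, prod_pair (l ≠ j) and commutativity. Nonnegative: all terms are. -/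
def JdUStmt : Prop := ∀ (K r : ℕ) (P : Fin r → Pf) (𝒜 : Finset (Fin K → Fin r)),
  JD P 𝒜 ∅ = Iq P 𝒜 ∧ (∀ l, JD P 𝒜 {l} = Jq P 𝒜 l) ∧ (∀ l j, l ≠ j → JD P 𝒜 {l, j} = Jq2 P 𝒜 l j) ∧
  ((∀ a b, 0 ≤ ip (P a) (P b)) → (∀ a, 0 < im (P a)) → ∀ D, 0 ≤ JD P 𝒜 D)

/-- Module IdU (100 lines). Uses: CG.Ma.PfBStmt. Proof. For a profile with exponents in [0, t] f = pfn P R is 0 at all n > R^t (PfB with β = t) and f 1 = (log R)^2 im P. If Yr W X t n: a divisor d ≠ 1 of PqV W R with d ∣ n has a prime factor p ∈ QsV W R, p ∣ n, so p is not in QsV W (R^t), p > R^t, d > R^t, f d = 0; hence A_f(n) = f 1. WWC = ∑_v ∏_(j ∈ D) ∏_(j ∉ D) (Finset.prod_sdiff / prod_mul_prod_compl). -/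
def IdUStmt : Prop := ∀ (K r : ℕ) (P : Fin r → Pf) (bd : Fin r → ℝ) (𝒜 : Finset (Fin K → Fin r)) (t : ℝ),
  Vda P bd 𝒜 → 0 < t → t ≤ 1 → (∀ a s, (P a).be s ≤ t) →
  ∀ (X W b : ℕ) (a c : Fin K → ℕ) (D : Finset (Fin K)), 1 < RR X → 1 ≤ W →
  (∀ j ∈ D, Yr W X t (a j * b + c j)) →
  WWC W X P 𝒜 a c b = Real.log (RR X) ^ (2 * D.card) * UD W X P 𝒜 a c D b

/-- Module UsU (250 lines; port of BE/B/MaC.lean). Uses: S1C, CG.Ma.PfBStmt, CG.Mf.MfTStmt, PhU. Proof. UD^2 ∏_(D) (A_q A_h) = ∑_(v, v' ∈ 𝒜) (∏_(D) im (P (v j)) im (P (v' j))) ∏_j (A_(f (j, true)) A_(f (j, false)))(L_j), f (j, true) = q for j ∈ D, pfn (P (v j)) R otherwise; f (j, false) = h for j ∈ D, pfn (P (v' j)) R otherwise.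
S1C (P0 = 1, σ = Fin K): y (j, true) = R^(1/4), y (j, false) = R^(1/2) for j ∈ D, R^(bd (v j)), R^(bd (v' j)) otherwise; ∏ y ≤ R^(3/2 + 1/2 + 1/2) = X^(1/2) (card D ≤ 2, bd ≥ 0), B = C (log R)^2, T j = C G (MfT, as in MaC with K = 0 there, and the hypothesis on TTF q h). Main term TTF(q, h)(1,1)^(card D) ∏_(j ∉ D) G (ip + O(1/√log X)), |TTF q h| ≤ Ch G. -/
def UsUStmt : Prop := ∀ (K r : ℕ) (P : Fin r → Pf) (bd : Fin r → ℝ) (𝒜 : Finset (Fin K → Fin r)),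
  Vda P bd 𝒜 → (∀ v ∈ 𝒜, ∑ i, bd (v i) ≤ 1 / 2) → ∀ Ch η : ℝ, 0 < Ch → 0 < η → ∃ X0 : ℝ,
  ∀ (X w V p0 : ℕ) (a c : Fin K → ℕ) (D : Finset (Fin K)) (h : ℕ → ℝ), X0 ≤ X → StC X w V p0 a c →
  D.card ≤ 2 → Sup ((RR X) ^ ((1 : ℝ) / 2)) h → (∀ n, |h n| ≤ Ch * Real.log (RR X) ^ 2) →
  (∀ b b' : ℕ, |TTF (V * p0) (RR X) (qU X) h b b'| ≤ Ch * GG (V * p0) X) →
  |∑ b ∈ Icc 1 X, UD (V * p0) X P 𝒜 a c D b ^ 2 *
      ∏ j ∈ D, (AF (V * p0) (RR X) (qU X) (a j * b + c j) * AF (V * p0) (RR X) h (a j * b + c j))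
    - X * (TTF (V * p0) (RR X) (qU X) h 1 1 ^ D.card * GG (V * p0) X ^ (K - D.card) * JD P 𝒜 D)| ≤
    X * (GG (V * p0) X ^ K * η) + (X : ℝ) ^ ((3 : ℝ) / 5)

/-- Module FpU (300 lines; port of BE/R/McR.lean; the constant Ca is ABSOLUTE). Uses: S1C, CG.Ma.TmAStmt, CG.Ma.TmBStmt, CG.Ma.PfAStmt, CG.Ma.PfBStmt, CG.Ma.AfPStmt, CG.Mf.MfTStmt, PhU. Proof. As McR: the b with p ∣ L_l form one class mod p, p ∤ L_j for j ≠ l; for such b A_f(L_j) = AF (W p) R f (L_j) for j ≠ l and A_q(L_l) = AF (W p) R q_p (L_l), q_p(d) = q(d) - q(p d) (AfP). UD^2 ∏_(D) A_q^2 is a sum over v, v' ∈ 𝒜 as in UsU. S1C for W p, P0 = p, f (l, true) = f (l, false) = q_p, f (j, .) = q for j ∈ D, j ≠ l, the profiles otherwise; ∏ y ≤ R^(1/4 · 4 + 1) ≤ X^(2/5).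
Sizes (E = (log p/log R)^2 + 1/√(log X), s = 1/√(log X)): by PfA for the modulus W p (Tame (W p) (2 lam), dlV (W p) = dlV W (1 - 1/p)) |TTF(q_p, q_p)| ≤ Ca' G E (for ALL arguments; Ca' absolute: M of ph 1 is 16), |TTF(q, q)(1,1)| ≤ 11 G and ≤ C G for all arguments, |TTF(P_i, P_k)(1,1)| ≤ G (ip (1 + 2/p) + C s), ≤ C G for all arguments (MfT). p > w → ∞. As im > 0 and ip ≥ 0: the main term summed over v, v' is ≤ 11 Ca' E G^K (JD + η/4) for X large, and the S1C error is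
≤ card 𝒜^2 C^K E G^K (exp (C'/w) - 1) ≤ E G^K η/4. -/
def FpUStmt : Prop := ∃ Ca : ℝ, 0 < Ca ∧ ∀ (K r : ℕ) (P : Fin r → Pf) (bd : Fin r → ℝ)
  (𝒜 : Finset (Fin K → Fin r)), Vda P bd 𝒜 → (∀ v ∈ 𝒜, ∑ i, bd (v i) ≤ 1 / 2) →
  (∀ a b, 0 ≤ ip (P a) (P b)) → (∀ a, 0 < im (P a)) → ∀ η : ℝ, 0 < η → ∃ X0 : ℝ,
  ∀ (X w V p0 p : ℕ) (a c : Fin K → ℕ) (l : Fin K) (D : Finset (Fin K)), X0 ≤ X → StC X w V p0 a c →
  p.Prime → ¬ p ∣ V * p0 → (p : ℝ) ≤ RR X → l ∈ D → D.card ≤ 2 →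
  ∑ b ∈ (Icc 1 X).filter (fun b => p ∣ a l * b + c l), UD (V * p0) X P 𝒜 a c D b ^ 2 *
      ∏ j ∈ D, AF (V * p0) (RR X) (qU X) (a j * b + c j) ^ 2 ≤
    X / p * (GG (V * p0) X ^ K * ((JD P 𝒜 D + η) *
      (Ca * ((Real.log p / Real.log (RR X)) ^ 2 + 1 / Real.sqrt (Real.log X))))) + (X : ℝ) ^ ((3 : ℝ) / 5)

open Classical in
/-- Module YpU (120 lines; compare BE/R/MgR.lean). Uses: FpU, CG.Mf.MfDStmt, JdU. Proof. If ¬ Yr W X t L_l some p ∈ QsV W (R^t) divides L_l; the summand is ≥ 0, so the sum is at most the sum over these p (p ≤ R^t = X^(t/5) ≤ R, p ∤ W) of FpU: ≤ X G^K (JD + η) Ca C2 (t/5)^2 + .. (MfD with κ = t/5) + X^(1/20) X^(3/5); G ≥ 1 (X large), JD ≥ 0, X^(13/20) ≤ X η^2/2. -/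
def YpUStmt : Prop := ∃ Ca : ℝ, 0 < Ca ∧ ∀ (K r : ℕ) (P : Fin r → Pf) (bd : Fin r → ℝ)
  (𝒜 : Finset (Fin K → Fin r)), Vda P bd 𝒜 → (∀ v ∈ 𝒜, ∑ i, bd (v i) ≤ 1 / 2) →
  (∀ a b, 0 ≤ ip (P a) (P b)) → (∀ a, 0 < im (P a)) → ∀ t η : ℝ, 0 < t → t ≤ 1 / 4 → 0 < η → ∃ X0 : ℝ,
  ∀ (X w V p0 : ℕ) (a c : Fin K → ℕ) (l : Fin K) (D : Finset (Fin K)), X0 ≤ X → StC X w V p0 a c →
  l ∈ D → D.card ≤ 2 →
  ∑ b ∈ (Icc 1 X).filter (fun b => ¬ Yr (V * p0) X t (a l * b + c l)), UD (V * p0) X P 𝒜 a c D b ^ 2 *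
      ∏ j ∈ D, AF (V * p0) (RR X) (qU X) (a j * b + c j) ^ 2 ≤
    X * (GG (V * p0) X ^ K * ((JD P 𝒜 D + η) * (Ca * t ^ 2 + η)))

/-- Module R1U (150 lines; first moment). Uses: UsU, YpU, IdU, GaU, GtU, JdU. Proof. D = {l}. On Yr t: WWC^2 rhoU = UD^2 A_q A_g (IdU: WWC = (log R)^2 UD). So ∑ WWC^2 rhoU = ∑ UD^2 A_q A_g - ∑_(¬ Yr) UD^2 A_q^2 (1 - N) (GaU) ≥ ∑ UD^2 A_q A_g - ∑_(¬ Yr) UD^2 A_q^2 (N ≥ 0). UsU with h = g (GaU, GtU; Ch = max of the constants) for η/2, YpU; X^(3/5) ≤ X η/2, tau G^(K-1) = G^K tau/G. -/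
def R1UStmt : Prop := ∃ Ca : ℝ, 0 < Ca ∧ ∀ (t u : ℝ), 0 < t → t ≤ u → u ≤ 1 / 4 →
  ∀ (K r : ℕ) (P : Fin r → Pf) (bd : Fin r → ℝ) (𝒜 : Finset (Fin K → Fin r)), Vda P bd 𝒜 →
  (∀ v ∈ 𝒜, ∑ i, bd (v i) ≤ 1 / 2) → (∀ a b, 0 ≤ ip (P a) (P b)) → (∀ a, 0 < im (P a)) →
  (∀ a s, (P a).be s ≤ t) → ∀ η : ℝ, 0 < η → ∃ X0 : ℝ,
  ∀ (X w V p0 : ℕ) (a c : Fin K → ℕ) (l : Fin K), X0 ≤ X → StC X w V p0 a c →
  X * GG (V * p0) X ^ K * (tau (V * p0) X t u / GG (V * p0) X * Jq P 𝒜 l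
      - (Jq P 𝒜 l + η) * (Ca * t ^ 2 + η) - η) ≤
    ∑ b ∈ Icc 1 X, WWC (V * p0) X P 𝒜 a c b ^ 2 * rhoU (V * p0) X t u (a l * b + c l)

/-- Module R2U (200 lines; pairs). Uses: UsU, YpU, IdU, GaU, GtU, DgU, JdU. Proof. D = {l, j}. If both values are Yr t: WWC^2 rhoU rhoU' = UD^2 A_q A_g A_q' A_g' = UD^2 A_q^2 A_q'^2 (1 - N)(1 - N'), otherwise 0. So the sum is ∑ UD^2 A_q A_g A_q' A_g' + ∑_(¬ Yr l or ¬ Yr j) UD^2 A_q^2 A_q'^2 (-(1 - N)(1 - N')), and -(1 - N)(1 - N') ≤ max N N' ≤ 10/t (natural numbers N, N'; DgU, 1 ≤ L ≤ a X + c ≤ X^2). UsU with h = g, YpU for l and for j. tau^2 G^(K-2) = G^K (tau/G)^2 (K ≥ 2). -/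
def R2UStmt : Prop := ∃ Ca : ℝ, 0 < Ca ∧ ∀ (t u : ℝ), 0 < t → t ≤ u → u ≤ 1 / 4 →
  ∀ (K r : ℕ) (P : Fin r → Pf) (bd : Fin r → ℝ) (𝒜 : Finset (Fin K → Fin r)), Vda P bd 𝒜 →
  (∀ v ∈ 𝒜, ∑ i, bd (v i) ≤ 1 / 2) → (∀ a b, 0 ≤ ip (P a) (P b)) → (∀ a, 0 < im (P a)) →
  (∀ a s, (P a).be s ≤ t) → ∀ η : ℝ, 0 < η → ∃ X0 : ℝ,
  ∀ (X w V p0 : ℕ) (a c : Fin K → ℕ) (l j : Fin K), X0 ≤ X → StC X w V p0 a c → l ≠ j →
  (∀ i, a i * X + c i ≤ X ^ 2) →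
  ∑ b ∈ Icc 1 X, WWC (V * p0) X P 𝒜 a c b ^ 2 * (rhoU (V * p0) X t u (a l * b + c l) *
      rhoU (V * p0) X t u (a j * b + c j)) ≤
    X * GG (V * p0) X ^ K * ((tau (V * p0) X t u / GG (V * p0) X) ^ 2 * Jq2 P 𝒜 l j
      + 20 / t * ((Jq2 P 𝒜 l j + η) * (Ca * t ^ 2 + η)) + η)

/-- Module R3U (150 lines; diagonal). Uses: UsU, CG.Mf.MfTStmt, IdU, GaU, DgU, JdU, PhU. Proof. D = {l}. On Yr t: WWC^2 rhoU^2 = UD^2 A_q^2 (A_q^2 (1 - N)^2/(log R)^4) ≤ UD^2 A_q^2 C (1 + 10/t)^2 (DgU; |1 - N| ≤ 1 + 10/t), otherwise 0. UsU with h = q (Sup (R^(1/4)) implies Sup (R^(1/2)); TTF q q from MfT for r = 1, P = fun _ => ph 1, K = 0 there as in MaC: |TTF q q (1,1) - G 16/3| ≤ C G/√(log X)): ∑ UD^2 A_q^2 ≤ X G^K (6 Jq l + η). C3 = 6 C (1 + 10/t)^2. -/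
def R3UStmt : Prop := ∀ (t u : ℝ), 0 < t → t ≤ u → u ≤ 1 / 4 → ∃ C3 : ℝ, 0 < C3 ∧
  ∀ (K r : ℕ) (P : Fin r → Pf) (bd : Fin r → ℝ) (𝒜 : Finset (Fin K → Fin r)), Vda P bd 𝒜 →
  (∀ v ∈ 𝒜, ∑ i, bd (v i) ≤ 1 / 2) → (∀ a b, 0 ≤ ip (P a) (P b)) → (∀ a, 0 < im (P a)) →
  (∀ a s, (P a).be s ≤ t) → ∀ η : ℝ, 0 < η → ∃ X0 : ℝ,
  ∀ (X w V p0 : ℕ) (a c : Fin K → ℕ) (l : Fin K), X0 ≤ X → StC X w V p0 a c →
  (∀ i, a i * X + c i ≤ X ^ 2) →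
  ∑ b ∈ Icc 1 X, WWC (V * p0) X P 𝒜 a c b ^ 2 * rhoU (V * p0) X t u (a l * b + c l) ^ 2 ≤
    X * GG (V * p0) X ^ K * (C3 * (Jq P 𝒜 l + η))

/-! ### Variational part -/

open Classical in
/-- Module MkU (250 lines; port of CG/Mv/MkV.lean, which is the case e0 = 1/2). Uses: nothing. Proof. As pMkV: the loss for v (and for u) is ≤ (K - 1) (∑ m)^2 S^(K-2) T/(D - Lm) ≤ (e0/2) (∑ m)^2 S^(K-1). -/
def MkUStmt : Prop :=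
  ∀ (K r : ℕ) (α : Fin r → Fin r → ℝ) (m ℓ : Fin r → ℝ) (D Lm e0 : ℝ), 1 ≤ K → 0 < e0 → (∀ i j, 0 ≤ α i j) →
    (∀ i j, α i j = α j i) → (∀ i, 0 ≤ m i) → (∀ i, 0 ≤ ℓ i ∧ ℓ i ≤ Lm) → Lm < D → 0 < ∑ i, ∑ j, α i j →
    2 * ((K : ℝ) - 1) * ∑ i, ∑ j, ℓ i * α i j ≤ e0 * ((D - Lm) * ∑ i, ∑ j, α i j) →
    (∑ v ∈ univ.filter (fun v : Fin K → Fin r => ∑ j, ℓ (v j) ≤ D),
      ∑ u ∈ univ.filter (fun u : Fin K → Fin r => ∑ j, ℓ (u j) ≤ D), ∏ j, α (v j) (u j)) ≤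
      (∑ i, ∑ j, α i j) ^ K ∧
    ∀ l : Fin K, (1 - e0) * ((∑ i, m i) ^ 2 * (∑ i, ∑ j, α i j) ^ (K - 1)) ≤
      ∑ v ∈ univ.filter (fun v : Fin K → Fin r => ∑ j, ℓ (v j) ≤ D),
        ∑ u ∈ univ.filter (fun u : Fin K → Fin r => ∑ j, ℓ (u j) ≤ D),
          m (v l) * m (u l) * ∏ j ∈ univ.erase l, α (v j) (u j)

/-- the data of the variational part -/
structure TnE (m n : ℕ) {r : ℕ} (P : Fin r → Pf) (bd : Fin r → ℝ) (𝒜 : Finset (Fin (m * n) → Fin r))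
    (α T e0 t A0 : ℝ) : Prop where
  vda : Vda P bd 𝒜
  half : ∀ v ∈ 𝒜, ∑ i, bd (v i) ≤ 1 / 2
  ipn : ∀ a b, 0 ≤ ip (P a) (P b)
  imp : ∀ a, 0 < im (P a)
  be : ∀ a s, (P a).be s ≤ t
  Tp : 0 < T
  ap : 0 < α
  a1 : α ≤ 1
  I1 : Iq P 𝒜 ≤ T
  J1 : ∀ l, (1 - e0) * (α * T) ≤ Jq P 𝒜 l ∧ Jq P 𝒜 l ≤ α * T
  J2 : ∀ l j, l ≠ j → Jq2 P 𝒜 l j ≤ α ^ 2 * T
  lo : A0 ≤ n * α

/-- Module TnU (260 lines; port of BE/B/TnC.lean). Uses: CG.Mv.IpVStmt, CG.Mv.SuVStmt, MkU, TuC. Proof. As tTnC with the profiles pr D a, a < r, but D is free now: Λ = 50/e0 + 1/t + 1 (e0 ≤ 1 wlog), r ≥ 1 with r ≥ (16/3) A0 Λ m, n = 2^r, K = m n, D = Λ r K, 𝒜 = the v with ∑_j 2^(v j + 1) ≤ D/2, bd a = 2^(a+1)/D ≤ n/D ≤ min t 1, T = (S/D^3)^K, α = M^2/(S D) (so (M/D^2)^2 = α S/D^3), 1 ≤ S ≤ 3, M ≥ (3/4) r, M ≤ (3/2) r (mm ≤ 3/2), U ≤ 3 r.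
MkU for D/2, Lm = n: 2 (K - 1) U ≤ 6 r K ≤ e0 (D/2 - n) S. n α ≥ n (9/16) r^2/(3 Λ r m n) ≥ A0; α ≤ (9/4) r^2/(50 r 2^r) ≤ 1. J_l and Jq2 as there: (M/D^2)^2 (S/D^3)^(K-1) = α T, (M/D^2)^4 (S/D^3)^(K-2) = α^2 T. -/
def TnUStmt : Prop := ∀ m : ℕ, 1 ≤ m → ∀ e0 t A0 : ℝ, 0 < e0 → 0 < t → ∃ (n r : ℕ) (P : Fin r → Pf)
  (bd : Fin r → ℝ) (𝒜 : Finset (Fin (m * n) → Fin r)) (α T : ℝ), 1 ≤ n ∧ TnE m n P bd 𝒜 α T e0 t A0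

/-! ### Bins -/

/-- Module EmU (120 lines; finite sums). Uses: nothing. Proof. μ = n α τ > 0. On E ∑_l ρ_l ≤ 0, so 1 ≤ (1 - (∑ ρ)/μ)^2 and ∑_E W ≤ ∑_𝓑 W (1 - (∑ ρ)/μ)^2 = ∑ W - (2/μ) ∑_l ∑ W ρ_l + (1/μ^2) ∑_(l,j) ∑ W ρ_l ρ_j (diagonal and off-diagonal; n (n-1) ≤ n^2, the off-diagonal bound is ≥ 0)
≤ Z (T + ε - 2 (1 - e0) T + 2 δ1/(α τ) + T + δ2/(α^2 τ^2) + C3 T/(n α τ^2)), τ ≥ 1. -/
def EmUStmt : Prop := ∀ (n : ℕ) (𝓑 E : Finset ℕ) (W : ℕ → ℝ) (ρ : Fin n → ℕ → ℝ) (Z T α τ e0 ε δ1 δ2 C3 : ℝ),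
  1 ≤ n → 0 < Z → 0 < T → 0 < α → 1 ≤ τ → 0 ≤ δ1 → 0 ≤ δ2 → 0 ≤ C3 → E ⊆ 𝓑 → (∀ b, 0 ≤ W b) →
  (∀ b ∈ E, ∀ l, ρ l b ≤ 0) → ∑ b ∈ 𝓑, W b ≤ Z * (T + ε) →
  (∀ l, Z * (τ * ((1 - e0) * (α * T)) - δ1) ≤ ∑ b ∈ 𝓑, W b * ρ l b) →
  (∀ l j, l ≠ j → ∑ b ∈ 𝓑, W b * (ρ l b * ρ j b) ≤ Z * (τ ^ 2 * (α ^ 2 * T) + δ2)) →
  (∀ l, ∑ b ∈ 𝓑, W b * ρ l b ^ 2 ≤ Z * (C3 * (α * T))) →
  ∑ b ∈ E, W b ≤ Z * (ε + 2 * e0 * T + 2 * δ1 / α + δ2 / α ^ 2 + C3 * T / (n * α))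

open Classical in
/-- Module EiU (200 lines; the mass of the empty bins). Uses: TaU, R1U, R2U, R3U, SgU, MaC, EmU. Proof. u from TaU, Ca = the maximum of the constants of R1U, R2U. Given m: t ≤ u and e0 ≤ 1/2 with 2 e0 + 2 Ca t^2 + 20 Ca t ≤ 1/(4·10^9 m); C3 from R3U for t, u; A0 ≥ 2 with 2 C3/A0 ≤ 1/(4·10^9 m). Given the data of TnE: η small (depending on everything), X large. Z = X G^K, K = m n, τ = tau/G ≥ 4 (TaU, G > 0). EmU with W = WWC^2, E = the filter, ρ s b = rhoU (L_(i,s)) (≤ 0 on E by SgU), the injection s ↦ finProdFinEquiv (i, s).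
MaC: ∑ W ≤ Z (T + ε), ε = η + small (X^(3/5) ≤ X η, G^K ≥ 1). R1U: δ1 = (αT + η)(Ca t^2 + η) + η (Jq ≥ (1 - e0) αT, Jq ≤ αT). R2U: δ2 = (20/t)(α^2 T + η)(Ca t^2 + η) + η. R3U: C3 (αT + η) ≤ 2 C3 αT. The bound of EmU is ≤ Z T (2 e0 + 2 Ca t^2 + 20 Ca t + 2 C3/(n α)) + (terms with the factor η) ≤ Z T/(10^9 m). -/
def EiUStmt : Prop := ∃ u : ℝ, 0 < u ∧ u ≤ 1 / 4 ∧ ∀ m : ℕ, 1 ≤ m → ∃ e0 t A0 : ℝ, 0 < e0 ∧ e0 ≤ 1 / 2 ∧ 0 < t ∧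
  2 ≤ A0 ∧ ∀ (n r : ℕ) (P : Fin r → Pf) (bd : Fin r → ℝ) (𝒜 : Finset (Fin (m * n) → Fin r)) (α T : ℝ), 1 ≤ n →
  TnE m n P bd 𝒜 α T e0 t A0 → ∃ X0 : ℝ, ∀ (X w V p0 : ℕ) (a c : Fin (m * n) → ℕ), X0 ≤ X →
  StC X w V p0 a c → (∀ l, a l * X + c l ≤ X ^ 2) → ∀ i : Fin m,
  ∑ b ∈ (Icc 1 X).filter (fun b => ∀ s : Fin n,
      ¬ Yr (V * p0) X u (a (finProdFinEquiv (i, s)) * b + c (finProdFinEquiv (i, s)))),
    WWC (V * p0) X P 𝒜 a c b ^ 2 ≤ X * GG (V * p0) X ^ (m * n) * (T / (10 ^ 9 * m))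

/-- MAYNARD-TAO IN BINS, in every bin an X^κ0-rough value, κ0 ABSOLUTE -/
def BinUStmt : Prop := ∃ κ0 : ℝ, 0 < κ0 ∧ ∀ m : ℕ, 1 ≤ m → ∃ n : ℕ, 1 ≤ n ∧ ∃ (κ : ℝ) (w1 : ℕ) (X0 : ℝ), 0 < κ ∧
  ∀ (X w V p0 : ℕ) (a c : Fin (m * n) → ℕ), X0 ≤ X → w1 < p0 → StC X w V p0 a c →
  (∀ l, BvC X p0 (a l) (c l)) → (∀ l, (c l).Coprime V ∧ ¬ p0 ∣ a l) → (∀ l, a l * X + c l ≤ X ^ 2) →
  ∃ b ∈ Icc 1 X, (∀ l, Rgh ((X : ℝ) ^ κ) (a l * b + c l)) ∧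
    (∀ i : Fin m, ∃ s : Fin n,
      Rgh ((X : ℝ) ^ κ0) (a (finProdFinEquiv (i, s)) * b + c (finProdFinEquiv (i, s)))) ∧
    (m : ℝ) / 10 ^ 6 ≤ ((univ.filter (fun i : Fin m => ∃ t : Fin n,
      b ∈ BpC X (a (finProdFinEquiv (i, t))) (c (finProdFinEquiv (i, t))))).card : ℝ)

/-- Module CmU (260 lines; port of BE/R/CmR.lean). Uses: TnU, BiR, MaR, MaC, MbC, MhC, UpC, PrC, MgR, EiU. Proof. u, e0, t, A0 from EiU, the data from TnU for these; κ0 = u/5. As tCmR (there TnC), with these changes. (1) n' = ⌈1/α⌉ ≤ n (α ≤ 1, n α ≥ 2), 1 ≤ n' α ≤ 2, so m ≤ m n' α ≤ 3 m; BiR is applied with n' instead of n, B i s = BpC of the form (i, castLE s), s : Fin n'; ε = T/(10^4 m n'^2); J1 gives α T/2 ≤ Jq l ≤ α T (e0 ≤ 1/2).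
(2) 𝓡 = the b ∈ Icc 1 X such that all forms are Rgh (X^κ), p0 divides no L_l(b), and for every i some L_(i,s)(b) is Yr W X u. Mass of the complement: MgR with η = T/(4·10^8), for the p0 part MaR with P0 = p0, η = 1 (the b with p0 ∣ L_l lie in one class mod p0, as p0 ∤ a l): ≤ K (Z (Iq + 1)/p0 + X^(3/5)) ≤ Z T/(4·10^8) for w1 large, EiU: ≤ m Z T/(10^9 m). Total ≤ Z T/10^8.
(3) For b ∈ 𝓡 a value L = L_(i,s)(b) with Yr W X u L is Rgh (X^κ0): a prime p ∣ L does not divide V (V ∣ a, (c, V) = 1) and is not p0; so p ∤ V p0, and p ≤ R^u = X^(u/5) would give p ∈ QsV W (R^u). (4) The occupied bins of BiR are occupied (castLE). -/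
def CmUStmt : Prop := BinUStmt

open Classical in
/-- occupied bins for arbitrary admissible forms, with absolute almost primes in all bins -/
def ObUStmt : Prop := ∃ C0 : ℕ, ∀ m : ℕ, 1 ≤ m → ∃ n C : ℕ, 1 ≤ n ∧ ∀ (M' : Fin (m * n) → ℕ) (h : Fin (m * n) → ℤ)
  (cl : ℕ → ℕ) (P : ℕ), (∀ l, 1 ≤ M' l) →
  (∀ p : ℕ, p.Prime → ∀ l, ¬ (p : ℤ) ∣ (M' l : ℤ) * cl p + h l) →
  (∀ i j, i ≠ j → (M' i : ℤ) * h j ≠ M' j * h i) →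
  ∃ X0 : ℝ, ∀ X : ℕ, X0 ≤ X → ∃ N : ℕ, (X : ℝ) ^ ((1 : ℝ) / 5) ≤ N ∧
    (∀ p : ℕ, p.Prime → p ≤ P → N ≡ cl p [MOD p]) ∧
    (∀ l, ∃ q : ℕ, 1 ≤ q ∧ (q : ℤ) = (M' l : ℤ) * N + h l ∧ q.primeFactorsList.length ≤ C) ∧
    (∀ i : Fin m, ∃ t : Fin n, ∃ q : ℕ, (q : ℤ) = (M' (finProdFinEquiv (i, t)) : ℤ) * N +
      h (finProdFinEquiv (i, t)) ∧ q.primeFactorsList.length ≤ C0) ∧
    (m : ℝ) / 10 ^ 6 ≤ ((univ.filter (fun i : Fin m => ∃ t : Fin n, ∃ p : ℕ, p.Prime ∧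
      (p : ℤ) = (M' (finProdFinEquiv (i, t)) : ℤ) * N + h (finProdFinEquiv (i, t)))).card : ℝ)

/-- Module ObU (210 lines; port of BE/R/ObR.lean). Uses: BinUStmt, BvqCStmt, VwC, StG. Proof. As tObR; C0 = ⌈2/κ0⌉, the hypothesis a l X + c l ≤ X^2: a l X + c l ≤ 5 V M' l X ≤ X^2 as there. -/
def ObUmStmt : Prop := ObUStmt

/-- the line theorem with absolute almost primes -/
def LineUStmt : Prop := ∃ C0 : ℕ, ∀ k : ℕ, 1 ≤ k → ∃ r n C : ℕ, 1 ≤ n ∧ ∀ (a : (Fin r → Fin k) → Fin n → ℕ)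
  (b : (Fin r → Fin k) → Fin n → ℤ) (cl : ℕ → ℕ) (P : ℕ), (∀ w s, 1 ≤ a w s) →
  (∀ p : ℕ, p.Prime → ∀ w s, ¬ (p : ℤ) ∣ (a w s : ℤ) * cl p + b w s) →
  (∀ w s w' s', (w, s) ≠ (w', s') → (a w s : ℤ) * b w' s' ≠ a w' s' * b w s) →
  ∃ (v : Fin r → Option (Fin k)) (s : Fin k → Fin n) (σ : (Fin r → Fin k) → Fin n), (∃ t, v t = none) ∧
    ∀ N0 : ℕ, ∃ N : ℕ, N0 ≤ N ∧ (∀ p : ℕ, p.Prime → p ≤ P → N ≡ cl p [MOD p]) ∧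
      (∀ w s', ∃ q : ℕ, 1 ≤ q ∧ (q : ℤ) = (a w s' : ℤ) * N + b w s' ∧ q.primeFactorsList.length ≤ C) ∧
      (∀ w, ∃ q : ℕ, (q : ℤ) = (a w (σ w) : ℤ) * N + b w (σ w) ∧ q.primeFactorsList.length ≤ C0) ∧
      ∀ j, ∃ p : ℕ, p.Prime ∧ (p : ℤ) = (a (lineMap v j) (s j) : ℤ) * N + b (lineMap v j) (s j)

/-- Module LnU (130 lines; port of BE/R/LnR.lean). Uses: GP.DhjStmt, ObUStmt. Proof. As tLnR; the triple (v, s, σ) takes finitely many values (σ w = the t of the bin of w). -/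
def LnUStmt : Prop := LineUStmt

/-- the line theorem with absolute almost primes, final form -/
def DkUStmt : Prop := ∃ C0 : ℕ, ∀ k : ℕ, 1 ≤ k → ∃ r K C : ℕ, ∀ (a b : (Fin r → Fin k) → Fin K → ℤ),
  (∀ w s, 0 < a w s) → (∀ w s w' s', a w s = a w' s' → b w s = b w' s' → w = w' ∧ s = s') →
  (∀ p : ℕ, p.Prime → ∃ n : ℕ, ∀ w s, ¬ (p : ℤ) ∣ a w s * n + b w s) →
  ∃ (v : Fin r → Option (Fin k)) (s : Fin k → Fin K) (σ : (Fin r → Fin k) → Fin K), (∃ t, v t = none) ∧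
    {n : ℕ | (∀ j, ∃ p : ℕ, p.Prime ∧
      (p : ℤ) = a (fun t => (v t).getD j) (s j) * n + b (fun t => (v t).getD j) (s j)) ∧
      (∀ w, ∃ q : ℕ, 1 ≤ q ∧ (q : ℤ) = a w (σ w) * n + b w (σ w) ∧ q.primeFactorsList.length ≤ C0) ∧
      ∀ w s', ∃ q : ℕ, 1 ≤ q ∧ (q : ℤ) = a w s' * n + b w s' ∧ q.primeFactorsList.length ≤ C}.Infinite

/-- Module DkU (100 lines; port of BE/R/DkR.lean). Uses: LineUStmt. Proof. As tDkR; 1 ≤ q for the q of σ w: it is equal to the q of the last clause. -/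
def DkUmStmt : Prop := DkUStmt

/-- CHAINS with ratio exactly g, at ALL places almost primes with an ABSOLUTE number of prime factors -/
def ChUStmt : Prop := ∃ C : ℕ, ∀ k : ℕ, 1 ≤ k → ∃ L : ℕ, ∀ (g M : ℕ) (S : Set (ℕ × ℤ)), 1 ≤ g → 1 ≤ M →
  (∀ s ∈ S, 1 ≤ s.1) → ((fun s : ℕ × ℤ => (s.2 : ℚ) / s.1) '' S).Infinite →
  (∀ s ∈ S, IsCoprime (M : ℤ) s.2 ∧ IsCoprime (g : ℤ) s.2 ∧ ∀ s' ∈ S, IsCoprime (s'.1 : ℤ) s.2) →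
  ∃ (m : ℕ → ℕ) (h : ℕ → ℤ) (x₀ d : ℕ), 1 ≤ d ∧ x₀ + (k - 1) * d ≤ L ∧ (∀ j, j ≤ L → (m j, h j) ∈ S) ∧
    (∀ i j, i < j → j ≤ L → (m i : ℤ) * h j ≠ m j * h i) ∧
    {n : ℕ | M ∣ n ∧ ∃ x : ℕ → ℕ, (∀ j, j ≤ L → (x j : ℤ) = (g : ℤ) ^ j * m j * n + h j ∧ 1 ≤ x j ∧
        (x j).primeFactorsList.length ≤ C) ∧
      ∀ i, i < k → (x (x₀ + i * d)).Prime}.Infinite

/-- Module ChU (210 lines; port of BE/R/ChR.lean). Uses: LineUStmt, HsP, ApP. Proof. As tChR with C = C0 + 1. For a place j = x₀ + i d, i < k, the index (lineMap v i, s i) (a prime: one prime factor); for the other j a word w with |w| = j and s' = σ w (at most C0 prime factors). -/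
def ChUmStmt : Prop := ChUStmt

end Pool.Agent.Lib.BE
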