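import Pool.Agent.Lib.BE.AllR
import Pool.Agent.Lib.BE.SpecU
import Pool.Agent.Lib.BE.U.PhU
import Pool.Agent.Lib.BE.U.GaU
import Pool.Agent.Lib.BE.U.GtU
import Pool.Agent.Lib.BE.U.TaU
import Pool.Agent.Lib.BE.U.SgU
import Pool.Agent.Lib.BE.U.DgU
import Pool.Agent.Lib.BE.U.JdU
import Pool.Agent.Lib.BE.U.IdU
import Pool.Agent.Lib.BE.U.UsU
import Pool.Agent.Lib.BE.U.FpU
import Pool.Agent.Lib.BE.U.YpU
import Pool.Agent.Lib.BE.U.R1U
import Pool.Agent.Lib.BE.U.R2U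
import Pool.Agent.Lib.BE.U.R3U
import Pool.Agent.Lib.BE.U.MkU
import Pool.Agent.Lib.BE.U.TnU
import Pool.Agent.Lib.BE.U.EmU
import Pool.Agent.Lib.BE.U.EiU
import Pool.Agent.Lib.BE.U.CmU
import Pool.Agent.Lib.BE.U.ObU
import Pool.Agent.Lib.BE.U.LnU
import Pool.Agent.Lib.BE.U.DkU
import Pool.Agent.Lib.BE.U.ObW
import Pool.Agent.Lib.BE.U.ChW
import Pool.Agent.Lib.MP_9f2731_nt.SS.Szm

/-!
PROJECT BU (helper60): composition of part U (in every bin an almost prime with an absolute number of prime factors).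
-/

set_option autoImplicit false

namespace Pool.Agent.Lib.BE

open Pool.Agent.Lib.MP_9f2731_nt.GP
open Pool.Agent.Lib.MP_9f2731_nt.QL
open Pool.Agent.Lib.MP_9f2731_nt.CG

theorem aGaU : GaUStmt := tGaU tPhU
theorem aGtU : GtUStmt := tGtU Ma.aTmA Ma.aTmB Ma.aHwT Ma.aM2T Ma.pMRF tPhU
theorem aMcR : McRStmt := tMcR aS1C Ma.aPfB Ma.aAfP Mf.aMfT
theorem aMaR : MaRStmt := tMaR aS1C Ma.aPfB Mf.aMfT
theorem aTaU : TaUStmt := tTaU aS1C aMaC aMcR Mf.pMfD aGaU aGtU tPhU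
theorem aUsU : UsUStmt := tUsU aS1C Ma.aPfB Mf.aMfT tPhU
theorem aFpU : FpUStmt := tFpU aS1C Ma.aTmA Ma.aTmB Ma.aPfA Ma.aPfB Ma.aAfP Mf.aMfT tPhU
theorem aYpU : YpUStmt := tYpU aFpU Mf.pMfD tJdU
theorem aIdU : IdUStmt := tIdU Ma.aPfB
theorem aR1U : R1UStmt := tR1U aUsU aYpU aIdU aGaU aGtU tJdU
theorem aR2U : R2UStmt := tR2U aUsU aYpU aIdU aGaU aGtU (tDgU tPhU) tJdU
theorem aR3U : R3UStmt := tR3U aUsU Mf.aMfT aIdU aGaU (tDgU tPhU) tJdU tPhU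
theorem aTnU : TnUStmt := tTnU Mv.pIpV Mv.pSuV tMkU tTuC
theorem aEiU : EiUStmt := tEiU aTaU aR1U aR2U aR3U (tSgU aGaU) aMaC tEmU
theorem aCmU : BinUStmt := tCmU aTnU tBiR aMaR aMaC aMbC tMhC aUpC aPrC aMgR aEiU
theorem aObU : ObUStmt := tObU aCmU aBfC tVwC (tStG tVwC)
theorem aLnU : LineUStmt := tLnU Dhj.dhjAll aObU

/-- the line theorem with absolute almost primes -/
theorem dkUAll : DkUStmt := tDkU aLnU

theorem aObW : ObWStmt := tObW aCmU aBfC tVwC (tStG tVwC)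

/-- systems a_j m_j n + h_j, all terms absolute almost primes, a positive proportion of them primes -/
theorem chWAll : ChWStmt := tChW aObW tHsP tApP (MP_9f2731_nt.SS.pSzm Dhj.dhjAll)

end Pool.Agent.Lib.BE
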