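import Pool.Agent.Lib.BE.SpecE

/-!
PROJECT BE: the hand-in forms of THEOREM BE (general form and chains).
-/

set_option autoImplicit false

namespace Pool.Agent.Lib.BE

open Finset

/-- the general form -/
theorem handInGeneral (hB : BeStmt) (k : ℕ) (hk : 1 ≤ k) :
    ∃ r : ℕ, ∀ (f : Fin r → Fin k → ℕ) (M : ℕ) (H : Set ℤ), (∀ t j, 1 ≤ f t j) → 1 ≤ M → H.Infinite →
      (∀ h ∈ H, IsCoprime (M : ℤ) h ∧ ∀ t j, IsCoprime (f t j : ℤ) h) →
      ∃ (T : Finset (Fin r)) (h : Fin k → ℤ), T.Nonempty ∧ Function.Injective h ∧ (∀ j, h j ∈ H) ∧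
        {n : ℕ | M ∣ n ∧ ∀ j, ∃ p : ℕ, p.Prime ∧ (p : ℤ) = (∏ t ∈ T, (f t j : ℤ)) * n + h j}.Infinite := by
  obtain ⟨r, hr⟩ := hB k hk
  refine ⟨r, fun f M H hf hM hH hc => ?_⟩
  obtain ⟨T, h, hT, hi, hm, hn⟩ := hr f M H hf hM hH hc
  refine ⟨T, h, hT, hi, hm, Set.infinite_of_forall_exists_gt fun N => ?_⟩
  obtain ⟨n, h1, h2, h3⟩ := hn (N + 1)
  refine ⟨n, ⟨h2, fun j => ?_⟩, by omega⟩
  obtain ⟨p, hp, hp'⟩ := h3 j
  refine ⟨p, hp, ?_⟩
  rw [hp', Nat.cast_prod]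

/-- chains `p (i + 1) = R p i + (h (i + 1) - R h i)`, where R is a product of different ones of the g t -/
theorem handInChains (hB : BeStmt) (k : ℕ) (hk : 1 ≤ k) :
    ∃ r : ℕ, ∀ (g : Fin r → ℕ) (M : ℕ) (H : Set ℤ), (∀ t, 1 ≤ g t) → 1 ≤ M → H.Infinite →
      (∀ h ∈ H, IsCoprime (M : ℤ) h ∧ ∀ t, IsCoprime (g t : ℤ) h) →
      ∃ (T : Finset (Fin r)) (R : ℤ) (h : ℕ → ℤ), T.Nonempty ∧ R = ∏ t ∈ T, (g t : ℤ) ∧
        (∀ i, 1 ≤ i → i ≤ k → h i ∈ H) ∧ Set.InjOn h (Set.Icc 1 k) ∧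
        {q : ℕ | ∃ p : ℕ → ℕ, p 1 = q ∧ (q : ℤ) ≡ h 1 [ZMOD M] ∧ (∀ i, 1 ≤ i → i ≤ k → (p i).Prime) ∧
          ∀ i, 1 ≤ i → i < k → (p (i + 1) : ℤ) = R * p i + (h (i + 1) - R * h i)}.Infinite := by
  obtain ⟨r, hr⟩ := handInGeneral hB k hk
  refine ⟨r, fun g M H hg hM hH hc => ?_⟩
  obtain ⟨T, h, hT, hi, hm, hn⟩ := hr (fun t j => g t ^ (j : ℕ)) M H (fun t j => Nat.one_le_pow _ _ (hg t)) hM hH
    (fun x hx => ⟨(hc x hx).1, fun t j => by
      push_cast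
      exact ((hc x hx).2 t).pow_left⟩)
  have hP : ∀ j : Fin k, ∏ t ∈ T, ((g t ^ (j : ℕ) : ℕ) : ℤ) = (∏ t ∈ T, (g t : ℤ)) ^ (j : ℕ) := by
    intro j
    rw [← Finset.prod_pow]
    exact Finset.prod_congr rfl fun t _ => by push_cast; rfl
  simp only [hP] at hn
  refine ⟨T, ∏ t ∈ T, (g t : ℤ), fun i => if hlt : i - 1 < k then h ⟨i - 1, hlt⟩ else 0, hT, rfl, ?_, ?_, ?_⟩
  · intro i h1 h2
    have hlt : i - 1 < k := by omega
    simp only [dif_pos hlt]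
    exact hm _
  · intro i h1 j h2 hij
    have hi1 := h1.1
    have hi2 := h1.2
    have hj1 := h2.1
    have hj2 := h2.2
    have e1 : i - 1 < k := by omega
    have e2 : j - 1 < k := by omega
    simp only [dif_pos e1, dif_pos e2] at hij
    have := hi hij
    simp only [Fin.mk.injEq] at this
    omega
  · refine Set.infinite_of_forall_exists_gt fun N => ?_
    obtain ⟨n, ⟨hMn, hnp⟩, hgt⟩ := hn.exists_gt (N + (h ⟨0, by omega⟩).natAbs)
    choose p hp hp' using hnp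
    refine ⟨p ⟨0, by omega⟩, ⟨fun i => if hlt : i - 1 < k then p ⟨i - 1, hlt⟩ else 0, ?_, ?_, ?_, ?_⟩, ?_⟩
    · simp only [Nat.sub_self, dif_pos (show 0 < k by omega)]
    · have e0 := hp' ⟨0, by omega⟩
      simp only [pow_zero, one_mul] at e0
      rw [e0]
      simp only [Nat.sub_self, dif_pos (show 0 < k by omega)]
      refine (Int.modEq_iff_dvd.2 ?_)
      obtain ⟨u, hu⟩ := hMn
      exact ⟨-(u : ℤ), by rw [hu]; push_cast; ring⟩
    · intro i h1 h2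
      have hlt : i - 1 < k := by omega
      simp only [dif_pos hlt]
      exact hp _
    · intro i h1 h2
      have hlt : i - 1 < k := by omega
      have hlt' : i < k := by omega
      simp only [Nat.add_sub_cancel, dif_pos hlt, dif_pos hlt']
      rw [hp', hp']
      simp only
      obtain ⟨i', rfl⟩ : ∃ i', i = i' + 1 := ⟨i - 1, by omega⟩
      simp only [Nat.add_sub_cancel]
      ring
    · have e0 := hp' ⟨0, by omega⟩
      simp only [pow_zero, one_mul] at e0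
      omega

end Pool.Agent.Lib.BE
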