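import Pool.Agent.Lib.MP_9f2731_nt.CG.Ma.Spec

/-!
PROJECT BE (note 5284, helper60): bounded ratio and bounded errors. Part A: sieve sums for the forms `a b + c`
(ports of Pool/Agent/Lib/MP_9f2731_nt/CG/Ma: the forms `a b + 1` are replaced by `a b + c`, the condition
`¬ p ∣ Nat.dist (a j) (a k)` by `¬ p ∣ Nat.dist (a j * c k) (a k * c j)`).

RULES. Module X: file Pool/Agent/Lib/BE/A/X.lean, first line `import Pool.Agent.Lib.BE.SpecA` (plus already proved files of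
CG/Ma, GP/Sv, QL/Sw if a private lemma is needed; copy private lemmas instead if possible), then `namespace
Pool.Agent.Lib.BE`, `open Finset`, `open Pool.Agent.Lib.MP_9f2731_nt.GP Pool.Agent.Lib.MP_9f2731_nt.GP.Sv
Pool.Agent.Lib.MP_9f2731_nt.QL Pool.Agent.Lib.MP_9f2731_nt.QL.Sw Pool.Agent.Lib.MP_9f2731_nt.CG
Pool.Agent.Lib.MP_9f2731_nt.CG.Ma`, auxiliary lemmas private with names starting with X_, final theorem `theorem tX :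
XStmt`; the statements listed under Uses are HYPOTHESES of tX, in this order: `theorem tX (h1 : AStmt) (h2 : BStmt) :
XStmt`. All modules are independent.
-/

set_option autoImplicit false

namespace Pool.Agent.Lib.BE

open Finset
open Pool.Agent.Lib.MP_9f2731_nt.GP
open Pool.Agent.Lib.MP_9f2731_nt.GP.Sv
open Pool.Agent.Lib.MP_9f2731_nt.QL
open Pool.Agent.Lib.MP_9f2731_nt.QL.Sw
open Pool.Agent.Lib.MP_9f2731_nt.CG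
open Pool.Agent.Lib.MP_9f2731_nt.CG.Ma

/-- Module ExC (port of CG/Ma/ExF.lean). Uses: CG.Ma.UbFStmt, GP.Sv.S_Crt (exactly the hypotheses of pExF there). Proof. As pExF: `ind p (a i * b + c i)` is periodic in b modulo p. -/
def ExCStmt : Prop := ∀ (ι : Type) [Fintype ι] [DecidableEq ι] (V : ℕ) (R : ℝ) (u : ℕ → ℕ → ℝ)
  (f : ι → ℕ → ℝ) (a c : ι → ℕ), (∀ p ∈ QsV V R, ∀ b, u p (b + p) = u p b) →
  ∑ b ∈ range (PqV V R), (∏ p ∈ QsV V R, u p b) * ∏ i, AF V R (f i) (a i * b + c i)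
    = act (∏ p ∈ QsV V R, ∑ b ∈ range p, u p b • ∏ i, (1 - ind p (a i * b + c i) • mon (e i p))) (PhF f) 1

/-- Module LoAC (port of CG/Ma/LoA.lean). Uses: nothing. Proof. As pLoA: p does not divide a j, so there is exactly one b < p with p ∣ a j b + c j. Two different forms are not both divisible by p: p ∣ a j b + c j, a k b + c k implies that p divides a k (a j b + c j) - a j (a k b + c k) = a k c j - a j c k. -/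
def LoACStmt : Prop := ∀ (σ : Type) [Fintype σ] [DecidableEq σ] (p : ℕ) (a c : σ → ℕ), p.Prime →
  (∀ j, ¬ p ∣ a j) → (∀ j k, j ≠ k → ¬ p ∣ Nat.dist (a j * c k) (a k * c j)) →
  ∑ b ∈ range p, (1 / (p : ℝ)) • ∏ i : σ × Bool, (1 - ind p (a i.1 * b + c i.1) • mon (e i p))
    = (1 : Al (σ × Bool)) + (1 / (p : ℝ)) • ∑ j, vv p j

/-- Module LoBC (port of CG/Ma/LoB.lean). Uses: nothing. Proof. As pLoB. -/
def LoBCStmt : Prop := ∀ (σ : Type) [Fintype σ] [DecidableEq σ] (p a0 c0 : ℕ) (a c : σ → ℕ), p.Prime →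
  ¬ p ∣ a0 → (∀ j, ¬ p ∣ a j) → (∀ j, ¬ p ∣ Nat.dist (a0 * c j) (a j * c0)) →
  (∀ j k, j ≠ k → ¬ p ∣ Nat.dist (a j * c k) (a k * c j)) →
  ∑ b ∈ range p, (if p ∣ a0 * b + c0 then (0 : ℝ) else 1 / ((p : ℝ) - 1)) •
      ∏ i : σ × Bool, (1 - ind p (a i.1 * b + c i.1) • mon (e i p))
    = (1 : Al (σ × Bool)) + (1 / ((p : ℝ) - 1)) • ∑ j, vv p j

/-- Module DnC (port of CG/Ma/DnF.lean). Uses: nothing. Proof. As pDnF. -/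
def DnCStmt : Prop := ∀ (ι : Type) [Fintype ι] (V : ℕ) (R : ℝ) (X P0 c1 : ℕ) (a c d : ι → ℕ), 1 ≤ P0 →
  (∀ p ∈ QsV V R, ¬ p ∣ P0) → (∀ i, ∀ p ∈ QsV V R, ¬ p ∣ a i) → (∀ i, d i ∣ PqV V R) →
  |(((Icc 1 X).filter (fun b => b ≡ c1 [MOD P0] ∧ ∀ i, d i ∣ a i * b + c i)).card : ℝ)
    - X / P0 * ((((range (PqV V R)).filter (fun b => ∀ i, d i ∣ a i * b + c i)).card : ℝ) / PqV V R)| ≤ 1

/-- Module PeC (port of CG/Ma/PeF.lean). Uses: DnC. Proof. As pPeF. -/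
def PeCStmt : Prop := ∀ (ι : Type) [Fintype ι] [DecidableEq ι] (V : ℕ) (R B : ℝ) (X P0 c1 : ℕ) (a c : ι → ℕ)
  (f : ι → ℕ → ℝ) (y : ι → ℝ), 1 ≤ P0 → (∀ p ∈ QsV V R, ¬ p ∣ P0) → (∀ i, ∀ p ∈ QsV V R, ¬ p ∣ a i) →
  (∀ i n, |f i n| ≤ B) → (∀ i, 0 ≤ y i ∧ Sup (y i) (f i)) →
  |∑ b ∈ (Icc 1 X).filter (fun b => b ≡ c1 [MOD P0]), ∏ i, AF V R (f i) (a i * b + c i)
    - X / P0 * ((∑ b ∈ range (PqV V R), ∏ i, AF V R (f i) (a i * b + c i)) / PqV V R)| ≤ ∏ i, (y i * B)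

/-- Module S1C (port of CG/Ma/S1F.lean). Uses: ExC, LoAC, CG.Ma.SuFStmt, PeC. Proof. As pS1F. -/
def S1CStmt : Prop := ∀ n : ℕ, ∃ C : ℝ, 0 < C ∧ ∀ (σ : Type) [Fintype σ] [DecidableEq σ] (V w X P0 c1 : ℕ)
  (R B : ℝ) (T : σ → ℝ) (a c : σ → ℕ) (f : σ × Bool → ℕ → ℝ) (y : σ × Bool → ℝ), Fintype.card σ ≤ n → 1 ≤ w →
  1 ≤ V → 1 ≤ P0 → 1 < R → (∀ p ∈ QsV V R, w < p ∧ ¬ p ∣ P0) → (∀ j, ∀ p ∈ QsV V R, ¬ p ∣ a j) →
  (∀ j k, j ≠ k → ∀ p ∈ QsV V R, ¬ p ∣ Nat.dist (a j * c k) (a k * c j)) → (∀ i n, |f i n| ≤ B) →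
  (∀ i, 0 ≤ y i ∧ y i ≤ R ∧ Sup (y i) (f i)) →
  (∀ j b b', |TTF V R (f (j, true)) (f (j, false)) b b'| ≤ T j) →
  |∑ b ∈ (Icc 1 X).filter (fun b => b ≡ c1 [MOD P0]),
      ∏ j, (AF V R (f (j, true)) (a j * b + c j) * AF V R (f (j, false)) (a j * b + c j))
    - X / P0 * ∏ j, TTF V R (f (j, true)) (f (j, false)) 1 1| ≤
    X / P0 * ((∏ j, T j) * (Real.exp (C / w) - 1)) + ∏ i, (y i * B)

/-! ### Mean values over primes -/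

/-- the weights of the residue classes prime to the form a0 b + c0 -/
noncomputable def u3 (a0 c0 p b : ℕ) : ℝ := if p ∣ a0 * b + c0 then 0 else 1 / ((p : ℝ) - 1)

open Classical in
/-- Module RhC (port of CG/Ma/RhF.lean). Uses: GP.Sv.S_Crt (exactly the hypotheses of pRhF there). Proof. As pRhF. -/
def RhCStmt : Prop := ∀ (ι : Type) [Fintype ι] (V : ℕ) (R : ℝ) (a0 c0 : ℕ) (a c d : ι → ℕ),
  (∀ p ∈ QsV V R, ¬ p ∣ a0) → (∀ i, ∀ p ∈ QsV V R, ¬ p ∣ a i) →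
  (∀ i, ∀ p ∈ QsV V R, ¬ p ∣ Nat.dist (a0 * c i) (a i * c0)) →
  (∀ i, d i ∣ PqV V R) →
  ∑ b ∈ range (PqV V R), (∏ p ∈ QsV V R, u3 a0 c0 p b) * (if ∀ i, d i ∣ a i * b + c i then 1 else 0)
    = if ∃ b : ℕ, ∀ i, d i ∣ a i * b + c i then 1 / ((univ.lcm d).totient : ℝ) else 0

open Classical in
/-- Module CoC (port of CG/Ma/CoF.lean). Uses: RhC. Proof. As pCoF. -/
def CoCStmt : Prop := ∀ (ι : Type) [Fintype ι] (V : ℕ) (R : ℝ) (a0 c0 : ℕ) (a c d : ι → ℕ) (𝒷 : Finset ℕ)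
  (err : ℕ → ℝ), (∀ p ∈ QsV V R, ¬ p ∣ a0) → (∀ i, ∀ p ∈ QsV V R, ¬ p ∣ a i) →
  (∀ i, ∀ p ∈ QsV V R, ¬ p ∣ Nat.dist (a0 * c i) (a i * c0)) → (∀ i, d i ∣ PqV V R) → (∀ D, 0 ≤ err D) →
  (∀ D b0 : ℕ, D ∣ PqV V R → (a0 * b0 + c0).Coprime D →
    |((𝒷.filter (fun b => b ≡ b0 [MOD D])).card : ℝ) - (𝒷.card : ℝ) / (D.totient : ℝ)| ≤ err D) →
  |((𝒷.filter (fun b => ∀ i, d i ∣ a i * b + c i)).card : ℝ) - (𝒷.card : ℝ) *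
    ∑ b ∈ range (PqV V R), (∏ p ∈ QsV V R, u3 a0 c0 p b) * (if ∀ i, d i ∣ a i * b + c i then 1 else 0)| ≤
    err (univ.lcm d)

/-- Module SpC (port of CG/Ma/SpF.lean). Uses: CoC, ExC. Proof. As pSpF. -/
def SpCStmt : Prop := ∀ (ι : Type) [Fintype ι] [DecidableEq ι] (V : ℕ) (R B : ℝ) (a0 c0 : ℕ) (a c : ι → ℕ)
  (𝒷 : Finset ℕ) (err : ℕ → ℝ) (f : ι → ℕ → ℝ) (y : ι → ℝ), (∀ p ∈ QsV V R, ¬ p ∣ a0) →
  (∀ i, ∀ p ∈ QsV V R, ¬ p ∣ a i) → (∀ i, ∀ p ∈ QsV V R, ¬ p ∣ Nat.dist (a0 * c i) (a i * c0)) →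
  (∀ D, 0 ≤ err D) →
  (∀ D b0 : ℕ, D ∣ PqV V R → (a0 * b0 + c0).Coprime D →
    |((𝒷.filter (fun b => b ≡ b0 [MOD D])).card : ℝ) - (𝒷.card : ℝ) / (D.totient : ℝ)| ≤ err D) →
  (∀ i n, |f i n| ≤ B) → (∀ i, 0 ≤ y i ∧ Sup (y i) (f i)) →
  |∑ b ∈ 𝒷, ∏ i, AF V R (f i) (a i * b + c i) - (𝒷.card : ℝ) *
      act (∏ p ∈ QsV V R, ∑ b ∈ range p, u3 a0 c0 p b • ∏ i, (1 - ind p (a i * b + c i) • mon (e i p)))
        (PhF f) 1| ≤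
    B ^ Fintype.card ι *
      ∑ d ∈ Fintype.piFinset (fun i => (PqV V R).divisors.filter (fun d : ℕ => (d : ℝ) ≤ y i)), err (univ.lcm d)

/-- Module S2C (port of CG/Ma/S2F.lean). Uses: LoBC, CG.Ma.SuFStmt, SpC, CG.Ma.ErFStmt. Proof. As pS2F. -/
def S2CStmt : Prop := ∀ n : ℕ, ∃ C : ℝ, 0 < C ∧ ∀ (σ : Type) [Fintype σ] [DecidableEq σ] (V w a0 c0 : ℕ)
  (R B : ℝ) (T : σ → ℝ) (a c : σ → ℕ) (𝒷 : Finset ℕ) (err : ℕ → ℝ) (f : σ × Bool → ℕ → ℝ)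
  (y : σ × Bool → ℝ),
  Fintype.card σ ≤ n → 1 ≤ w → 1 ≤ V → 1 < R → (∀ p ∈ QsV V R, w < p ∧ ¬ p ∣ a0) →
  (∀ j, ∀ p ∈ QsV V R, ¬ p ∣ a j ∧ ¬ p ∣ Nat.dist (a0 * c j) (a j * c0)) →
  (∀ j k, j ≠ k → ∀ p ∈ QsV V R, ¬ p ∣ Nat.dist (a j * c k) (a k * c j)) → (∀ D, 0 ≤ err D) →
  (∀ D b0 : ℕ, D ∣ PqV V R → (a0 * b0 + c0).Coprime D →
    |((𝒷.filter (fun b => b ≡ b0 [MOD D])).card : ℝ) - (𝒷.card : ℝ) / (D.totient : ℝ)| ≤ err D) →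
  (∀ i n, |f i n| ≤ B) → (∀ i, 0 ≤ y i ∧ y i ≤ R ∧ Sup (y i) (f i)) →
  (∀ j b b', |TTF V R (f (j, true)) (f (j, false)) b b'| ≤ T j) →
  |∑ b ∈ 𝒷, ∏ j, (AF V R (f (j, true)) (a j * b + c j) * AF V R (f (j, false)) (a j * b + c j))
    - (𝒷.card : ℝ) * ∏ j, TTF V R (f (j, true)) (f (j, false)) 1 1| ≤
    (𝒷.card : ℝ) * ((∏ j, T j) * (Real.exp (C / w) - 1)) + B ^ (2 * Fintype.card σ) *
      ∑ D ∈ (PqV V R).divisors.filter (fun D : ℕ => (D : ℝ) ≤ ∏ i, y i),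
        (D.divisors.card : ℝ) ^ (2 * Fintype.card σ) * err D

/-! ### Primes of the form q b + c -/

/-- the number of b ≤ X such that q b + c is prime -/
noncomputable def npqC (X q c : ℕ) : ℝ := (((Icc 1 X).filter (fun b => (q * b + c).Prime)).card : ℝ)

/-- the number of b ≤ X such that q b + c is prime and congruent to a modulo d -/
noncomputable def npaC (X q c d a : ℕ) : ℝ :=
  (((Icc 1 X).filter (fun b => (q * b + c).Prime ∧ q * b + c ≡ a [MOD d])).card : ℝ)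

/-- lower bound and Bombieri-Vinogradov theorem for the primes q b + c -/
def BvC (X p0 q c : ℕ) : Prop :=
  (1 / 4 : ℝ) * (((q : ℝ) / q.totient) * X / Real.log X) ≤ npqC X q c ∧
  ∀ a : ℕ → ℕ, (∀ d, (a d).Coprime d) →
    ∑ d ∈ (Icc 1 ⌊(X : ℝ) ^ ((9 : ℝ) / 20)⌋₊).filter (fun d => d.Coprime (q * p0)),
      |npaC X q c d (a d) - npqC X q c / (d.totient : ℝ)| ≤
      X * Real.exp (-(Real.log X) ^ ((1 : ℝ) / 200))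

/-- Module ErC (port of CG/Ma/ErB.lean). Uses: exactly the hypotheses of pErB there (GP.Rom.ExpStmt, GP.Rom.TotStmt; import also Pool.Agent.Lib.MP_9f2731_nt.GP.Rom.Spec). Proof. As pErB, with a0 b + 1 replaced by a0 b + c0: for (a0 b0 + c0, D) = 1, D ∣ PqV, D is prime to a0, so b ≡ b0 mod D iff a0 b + c0 ≡ a0 b0 + c0 mod D. -/
def ErCStmt : Prop := ∀ n : ℕ, ∃ X0 : ℝ, ∀ (X p0 a0 c0 V : ℕ), X0 ≤ X → BvC X p0 a0 c0 → 1 ≤ a0 → p0 ∣ V →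
  (∀ p : ℕ, p.Prime → ¬ p ∣ V → ¬ p ∣ a0) →
  ∃ err : ℕ → ℝ, (∀ D, 0 ≤ err D) ∧
    (∀ D b0 : ℕ, D ∣ PqV V ((X : ℝ) ^ ((1 : ℝ) / 5)) → (a0 * b0 + c0).Coprime D →
      |((((Icc 1 X).filter (fun b : ℕ => (X : ℝ) ^ ((1 : ℝ) / 5) < b ∧ (a0 * b + c0).Prime)).filter
          (fun b => b ≡ b0 [MOD D])).card : ℝ) -
        (((Icc 1 X).filter (fun b : ℕ => (X : ℝ) ^ ((1 : ℝ) / 5) < b ∧ (a0 * b + c0).Prime)).card : ℝ) /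
          (D.totient : ℝ)| ≤ err D) ∧
    ∑ D ∈ (PqV V ((X : ℝ) ^ ((1 : ℝ) / 5))).divisors.filter (fun D : ℕ => (D : ℝ) ≤ (X : ℝ) ^ ((2 : ℝ) / 5)),
        (D.divisors.card : ℝ) ^ n * err D ≤ X * Real.exp (-(Real.log X) ^ ((1 : ℝ) / 300))

end Pool.Agent.Lib.BE
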