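import Pool.Agent.Lib.MP_9f2731_nt.CG.Mf.Spec
import Pool.Agent.Lib.MP_9f2731_nt.CG.Mv.Spec
import Pool.Agent.Lib.BE.SpecA

/-!
PROJECT BE (note 5284, helper60). Part B: the Maynard-Tao weights for the forms `a b + c`, pairs, bins.

RULES. Module X: file Pool/Agent/Lib/BE/B/X.lean, first line `import Pool.Agent.Lib.BE.SpecB` (plus already proved files of
CG/Ma, CG/Mf, CG/Mv if a private lemma is needed; copy private lemmas instead if possible), then `namespace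
Pool.Agent.Lib.BE`, `open Finset`, `open Pool.Agent.Lib.MP_9f2731_nt.GP Pool.Agent.Lib.MP_9f2731_nt.GP.Sv
Pool.Agent.Lib.MP_9f2731_nt.QL Pool.Agent.Lib.MP_9f2731_nt.QL.Sw Pool.Agent.Lib.MP_9f2731_nt.CG
Pool.Agent.Lib.MP_9f2731_nt.CG.Ma Pool.Agent.Lib.MP_9f2731_nt.CG.Mf`, auxiliary lemmas private with names starting with X_,
final theorem `theorem tX : XStmt`; the statements listed under Uses are HYPOTHESES of tX, in this order. All modules are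
independent. Notation: R = RR X = X^(1/5), G = GG (V p0) X = (log R)^3/dlV (V p0), Z = X G^K.
-/

set_option autoImplicit false

namespace Pool.Agent.Lib.BE

open Finset
open Pool.Agent.Lib.MP_9f2731_nt.GP
open Pool.Agent.Lib.MP_9f2731_nt.GP.Sv
open Pool.Agent.Lib.MP_9f2731_nt.QL
open Pool.Agent.Lib.MP_9f2731_nt.QL.Sw
open Pool.Agent.Lib.MP_9f2731_nt.CG
open Pool.Agent.Lib.MP_9f2731_nt.CG.Ma
open Pool.Agent.Lib.MP_9f2731_nt.CG.Mf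

/-- the sieve weight (its square is used) for the forms a j b + c j -/
noncomputable def WWC (W : ℕ) (X : ℕ) {K r : ℕ} (P : Fin r → Pf) (𝒜 : Finset (Fin K → Fin r))
    (a c : Fin K → ℕ) (b : ℕ) : ℝ :=
  ∑ v ∈ 𝒜, ∏ j, AF W (RR X) (pfn (P (v j)) (RR X)) (a j * b + c j)

/-- the b with a0 b + c0 prime, R < b ≤ X -/
noncomputable def BpC (X a0 c0 : ℕ) : Finset ℕ :=
  (Icc 1 X).filter (fun b : ℕ => RR X < b ∧ (a0 * b + c0).Prime)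

/-- the setup: forms a j b + c j, j < K, modulus V, exceptional prime p0, all primes p ≤ w divide V p0 -/
structure StC (X w V p0 : ℕ) {K : ℕ} (a c : Fin K → ℕ) : Prop where
  hp : p0.Prime
  hpV : ¬ p0 ∣ V
  hV : 1 ≤ V
  hw : (Real.log (Real.log X)) ^ 2 ≤ w
  hlog : (1 + Real.log V) ^ 12 ≤ Real.sqrt (Real.log X)
  hs : ∀ p : ℕ, p.Prime → p ≤ w → p ∣ V * p0
  ha : ∀ j, ∀ p : ℕ, p.Prime → ¬ p ∣ V * p0 → ¬ p ∣ a j
  hd : ∀ j k, j ≠ k → ∀ p : ℕ, p.Prime → ¬ p ∣ V * p0 → ¬ p ∣ Nat.dist (a j * c k) (a k * c j)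
  hVa : ∀ j, V ∣ a j
  ha1 : ∀ j, 1 ≤ a j

/-- Module MaC (port of CG/Mf/MfA.lean; only P0 = 1). Uses: S1C, CG.Ma.PfBStmt, CG.Mf.MfTStmt. Proof. As pMfA with P0 = 1, c1 = 0 (Nat.modEq_one). MfT is used with K = 0 (a : Fin 0 → ℕ; the fields of Stp about a are then empty, the others are those of StC). -/
def MaCStmt : Prop := ∀ (K r : ℕ) (P : Fin r → Pf) (bd : Fin r → ℝ) (𝒜 : Finset (Fin K → Fin r)),
  Vda P bd 𝒜 → ∀ η : ℝ, 0 < η → ∃ X0 : ℝ, ∀ (X w V p0 : ℕ) (a c : Fin K → ℕ), X0 ≤ X →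
  StC X w V p0 a c →
  |∑ b ∈ Icc 1 X, WWC (V * p0) X P 𝒜 a c b ^ 2 - X * (GG (V * p0) X ^ K * Iq P 𝒜)| ≤
    X * (GG (V * p0) X ^ K * η) + (X : ℝ) ^ ((3 : ℝ) / 5)

/-- Module MbC (port of CG/Mf/MfB.lean). Uses: S2C, ErC, CG.Ma.PfBStmt, CG.Ma.AfPStmt, CG.Mf.MfTStmt. Proof. As pMfB: for b ∈ BpC the prime a l b + c l is > R. MfT with K = 0 as in MaC. -/
def MbCStmt : Prop := ∀ (K r : ℕ) (P : Fin r → Pf) (bd : Fin r → ℝ) (𝒜 : Finset (Fin K → Fin r)),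
  Vda P bd 𝒜 → ∀ η : ℝ, 0 < η → ∃ X0 : ℝ, ∀ (X w V p0 : ℕ) (a c : Fin K → ℕ) (l : Fin K), X0 ≤ X →
  StC X w V p0 a c → BvC X p0 (a l) (c l) →
  |∑ b ∈ BpC X (a l) (c l), WWC (V * p0) X P 𝒜 a c b ^ 2
    - ((BpC X (a l) (c l)).card : ℝ) * (Real.log (RR X) ^ 4 * GG (V * p0) X ^ (K - 1) * Jq P 𝒜 l)| ≤
    ((BpC X (a l) (c l)).card : ℝ) * (Real.log (RR X) ^ 4 * GG (V * p0) X ^ (K - 1) * η) + X

/-- Module MhC (port of CG/Mf/MfH.lean). Uses: nothing. Proof. As pMfH. -/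
def MhCStmt : Prop := ∃ X0 : ℝ, ∀ (X w V p0 K : ℕ) (a c : Fin K → ℕ) (l : Fin K), X0 ≤ X →
  StC X w V p0 a c → BvC X p0 (a l) (c l) →
  X / 50 * GG (V * p0) X ^ K ≤
    ((BpC X (a l) (c l)).card : ℝ) * (Real.log (RR X) ^ 4 * GG (V * p0) X ^ (K - 1))

/-- the profile `8 (1/2 - t)_+`, times x -/
noncomputable def psi (x : ℝ) : Pf where
  co := ![4 * x, 0, 0]
  be := ![1 / 2, 0, 0]

/-- Module PsC (40 lines). Uses: nothing. Proof. Sums over Fin 3; Ee (1/2) (1/2) = 1/24, Ee (1/2) 0 = 0. -/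
def PsCStmt : Prop := ∀ x y : ℝ, im (psi x) = x ∧ ip (psi x) (psi y) = 8 / 3 * (x * y)

/-- Module UpC (100 lines; upper bound for the number of primes). Uses: MaC, CG.Ma.PfBStmt, CG.Ma.AfPStmt, PsC. Proof. MaC for K = 1, r = 1, P = fun _ => psi 1, bd = fun _ => 1/2, 𝒜 = univ (one element), η = 1/10, the forms fun _ : Fin 1 => a l, c l (StC for them follows from StC: hd is empty): Iq = ip (psi 1) (psi 1) = 8/3. For b ∈ BpC: the number a l b + c l is a prime > R (it is ≥ b), so AF = pfn (psi 1) R 1 = (log R)^2 (AfP (3), PfB), WWC = (log R)^2.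
So #BpC (log R)^4 ≤ X G (8/3 + 1/10) + X^(3/5) ≤ 3 X G for X large (G ≥ (log R)^3 ≥ 1 because 0 < dlV ≤ 1). Multiply by G^(K-1) (K ≥ 1 as l : Fin K exists). -/
def UpCStmt : Prop := ∃ X0 : ℝ, ∀ (X w V p0 K : ℕ) (a c : Fin K → ℕ) (l : Fin K), X0 ≤ X →
  StC X w V p0 a c →
  ((BpC X (a l) (c l)).card : ℝ) * (Real.log (RR X) ^ 4 * GG (V * p0) X ^ (K - 1)) ≤
    3 * (X * GG (V * p0) X ^ K)

/-- the quadratic form of the pair l, j -/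
noncomputable def Jq2 {K r : ℕ} (P : Fin r → Pf) (𝒜 : Finset (Fin K → Fin r)) (l j : Fin K) : ℝ :=
  ∑ v ∈ 𝒜, ∑ u ∈ 𝒜, im (P (v l)) * im (P (u l)) * (im (P (v j)) * im (P (u j))) *
    ∏ i ∈ (univ.erase l).erase j, ip (P (v i)) (P (u i))

/-- Module PdC (150 lines; replacing one coordinate, algebra). Uses: PsC. Proof. P' = Fin.append P (fun a => psi (im (P a))), bd' = Fin.append bd (fun _ => 1/2), 𝒜' = the image of 𝒜 under v ↦ v', v' i = Fin.castAdd r (v i) for i ≠ j, v' j = Fin.natAdd r (v j) (an injective map). Vda: the exponents of psi are 1/2 and 0; bd ≥ 0 because 0 ≤ be ≤ bd; ∑ bd' (v' i) = 1/2 + ∑_{i ≠ j} bd (v i) ≤ 1;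
pos: by Vda.pos some term ∏ ip (P (v i)) (P (u i)) of Iq P 𝒜 is > 0 (all are ≥ 0), so ip (P (v i)) (P (u i)) > 0 for all i and the term of Iq P' 𝒜' for v', u' is (8/3) im im ∏_{i ≠ j} ip > 0, all terms are ≥ 0. Jq P' 𝒜' l = (8/3) Jq2 P 𝒜 l j: for l ≠ j the product over univ.erase l has the factor i = j: ip (psi x) (psi y) = (8/3) x y, and im (P' (v' l)) = im (P (v l)). -/
def PdCStmt : Prop := ∀ (K r : ℕ) (P : Fin r → Pf) (bd : Fin r → ℝ) (𝒜 : Finset (Fin K → Fin r)) (l j : Fin K),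
  Vda P bd 𝒜 → (∀ v ∈ 𝒜, ∑ i, bd (v i) ≤ 1 / 2) → (∀ a b, 0 ≤ ip (P a) (P b)) → (∀ a, 0 < im (P a)) → l ≠ j →
  ∃ φ : (Fin K → Fin r) → Fin K → Fin (r + r),
    (∀ v i, φ v i = if i = j then Fin.natAdd r (v j) else Fin.castAdd r (v i)) ∧ Function.Injective φ ∧
    Vda (Fin.append P (fun a => psi (im (P a)))) (Fin.append bd (fun _ => 1 / 2)) (𝒜.image φ) ∧
    Jq (Fin.append P (fun a => psi (im (P a)))) (𝒜.image φ) l = 8 / 3 * Jq2 P 𝒜 l j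

/-- Module PrC (120 lines; pairs). Uses: MbC, PdC, PsC, CG.Ma.PfBStmt, CG.Ma.AfPStmt. Proof. φ, P', bd', 𝒜' from PdC; X0 from MbC for P', 𝒜' and η (P' depends on j: maximum over the finitely many pairs l, j). For b ∈ BpC X (a j) (c j) the number a j b + c j is a prime > R, so AF (V p0) R (pfn (P (v j)) R) = (log R)^2 im (P (v j)) (AfP (3), PfB) and the same value for the profile psi (im (P (v j))) (PsC): hence
WWC for P', 𝒜' is equal to WWC for P, 𝒜 at b (sum over the image: Finset.sum_image). So the sum over the intersection is the sum of WWC(P', 𝒜')^2 over the intersection, at most its sum over BpC X (a l) (c l), and MbC. -/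
def PrCStmt : Prop := ∀ (K r : ℕ) (P : Fin r → Pf) (bd : Fin r → ℝ) (𝒜 : Finset (Fin K → Fin r)),
  Vda P bd 𝒜 → (∀ v ∈ 𝒜, ∑ i, bd (v i) ≤ 1 / 2) → (∀ a b, 0 ≤ ip (P a) (P b)) → (∀ a, 0 < im (P a)) →
  ∀ η : ℝ, 0 < η → ∃ X0 : ℝ, ∀ (X w V p0 : ℕ) (a c : Fin K → ℕ) (l j : Fin K), X0 ≤ X →
  StC X w V p0 a c → BvC X p0 (a l) (c l) → l ≠ j →
  ∑ b ∈ BpC X (a l) (c l) ∩ BpC X (a j) (c j), WWC (V * p0) X P 𝒜 a c b ^ 2 ≤
    ((BpC X (a l) (c l)).card : ℝ) * (Real.log (RR X) ^ 4 * GG (V * p0) X ^ (K - 1) *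
      (8 / 3 * Jq2 P 𝒜 l j + η)) + X

/-! ### The variational part -/

/-- Module TuC (120 lines; upper bounds). Uses: NOTHING (theorem tTuC : TuCStmt; PrF was never proved: CG/Mv/MkV.lean has the product formula as a private lemma, copy it). Proof. All terms are ≥ 0, so the sums over 𝒜 × 𝒜 are at most the sums over all v, u, and by the product formula ∑_v ∑_u ∏_i F i (v i) (u i) = ∏_i ∑_a ∑_b F i a b (F i a b = A a A b for i = l, and for i = j in the second part, F i = e otherwise) these are (∑ A)^2 S^(K-1) and ((∑ A)^2)^2 S^(K-2). The integrand is ∏_i F i (v i) (u i): Finset.mul_prod_erase. -/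
def TuCStmt : Prop := ∀ (K r : ℕ) (e : Fin r → Fin r → ℝ) (A : Fin r → ℝ) (𝒜 : Finset (Fin K → Fin r)),
  (∀ a b, 0 ≤ e a b) → (∀ a, 0 ≤ A a) →
  (∀ l : Fin K, ∑ v ∈ 𝒜, ∑ u ∈ 𝒜, A (v l) * A (u l) * ∏ j ∈ univ.erase l, e (v j) (u j) ≤
    (∑ a, A a) ^ 2 * (∑ a, ∑ b, e a b) ^ (K - 1)) ∧
  ∀ l j : Fin K, l ≠ j → ∑ v ∈ 𝒜, ∑ u ∈ 𝒜, A (v l) * A (u l) * (A (v j) * A (u j)) *
      ∏ i ∈ (univ.erase l).erase j, e (v i) (u i) ≤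
    (∑ a, A a) ^ 4 * (∑ a, ∑ b, e a b) ^ (K - 2)

/-- the data of the variational part: m bins with n forms each -/
structure TnD (m n : ℕ) {r : ℕ} (P : Fin r → Pf) (bd : Fin r → ℝ) (𝒜 : Finset (Fin (m * n) → Fin r))
    (α T : ℝ) : Prop where
  vda : Vda P bd 𝒜
  half : ∀ v ∈ 𝒜, ∑ i, bd (v i) ≤ 1 / 2
  ipn : ∀ a b, 0 ≤ ip (P a) (P b)
  imp : ∀ a, 0 < im (P a)
  Tp : 0 < T
  ap : 0 < α
  I1 : Iq P 𝒜 ≤ T
  J1 : ∀ l, α * T / 2 ≤ Jq P 𝒜 l ∧ Jq P 𝒜 l ≤ α * T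
  J2 : ∀ l j, l ≠ j → Jq2 P 𝒜 l j ≤ α ^ 2 * T
  lo : (m : ℝ) ≤ m * n * α
  hi : m * n * α ≤ 3 * (m : ℝ)

/-- Module TnC (written by helper49). Uses: CG.Mv.IpVStmt, CG.Mv.SuVStmt, CG.Mv.MkVStmt, TuC (theorem tTnC, in this order; VcA, VcB are not proved: with P a = pr D a, q = 512 m, n = 2^q, D = n M^2/(2 S)). Sketch with the profiles of VcA, VcB. q = 128 m, n = 2^q, K = m n, r = q, ε = 1/(48 q K), P a = hp ε a, bd a = ε 2^(a+1), 𝒜 = univ.filter (∑ bd (v j) ≤ 1/2). e a b = ip (P a) (P b) ≥ 0, symmetric, A a = im (P a) = 3ε/4 (VcB). Row sums ∑_b e a b ≤ (3/4) ε 2^(-a), so S = ∑∑ e ≤ (3/2) ε and S ≥ e 0 0 = ε/2.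
VcA for 2 bd (2 bd a ≤ ε 2^(q+1) = 2/(48 q m) ≤ 1/2; K ∑ 2 bd a ∑_b e a b ≤ K 3 q ε^2 = ε/16 ≤ S/8; the filter ∑ 2 bd (v j) ≤ 1 is ∑ bd (v j) ≤ 1/2): Iq ≤ S^K, Jq l ≥ (∑ A)^2 S^(K-1)/2; TuC: the upper bounds. T = S^K, α = (∑ A)^2/S = (9/16) q^2 ε^2/S (so (∑ A)^2 S^(K-1) = α T, (∑ A)^4 S^(K-2) = α^2 T if K ≥ 2; if there are l ≠ j then K ≥ 2). K α ≥ (3/8) q^2 ε K = q/128 = m and ≤ (9/8) q^2 ε K = 3 q/128 = 3 m.
Vda: hK: K ≥ 1; be ≤ bd (the cutoffs of hp ε a are ≤ ε 2^(a+1)); bd ≤ 1; pos: the term v = u = 0 of Iq is (ε/2)^K > 0 and 0 ∈ 𝒜 (K 2 ε ≤ 1/2), all other terms are ≥ 0. -/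
def TnCStmt : Prop := ∀ m : ℕ, 1 ≤ m → ∃ (n r : ℕ) (P : Fin r → Pf) (bd : Fin r → ℝ)
  (𝒜 : Finset (Fin (m * n) → Fin r)) (α T : ℝ), 1 ≤ n ∧ TnD m n P bd 𝒜 α T

/-! ### Bins -/

/-- Module BiC (150 lines; bins, finite sums). Uses: nothing. Proof. N_i(b) = the number of the t with b ∈ B i t, E(b) = the number of the i with N_i(b) ≥ 1, τ = 1/8100. 1[N ≥ 1] ≥ 2 τ N - τ^2 N^2 for natural numbers N (0 for N = 0, and 1 - 2τN + τ^2 N^2 = (1 - τN)^2 ≥ 0). ∑_b W N_i = ∑_t ∑_{B i t} W, ∑_b W N_i^2 = ∑_t ∑_{B i t} W + ∑_{t ≠ t'} ∑_{B i t ∩ B i t'} W.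
So ∑_b W E ≥ 2 τ m n Z (α T/100 - ε) - τ^2 (m n Z (3 α T + ε) + m n^2 Z (8 α^2 T + ε)), with m ≤ m n α ≤ 3 m: 3 m n α ≤ 9 m, 8 m n^2 α^2 = 8 (m n α)^2/m ≤ 72 m: ≥ Z T m (τ/50 - 81 τ^2) - Z ε (2 τ m n + τ^2 m n + τ^2 m n^2) = Z T m/810000 - (..), and the error is ≤ Z ε m n^2/2000 = Z T/(2 10^7) ≤ Z T m/(2 10^7).
If E(b) < m/10^6 for all b ∈ 𝓑 then ∑ W E ≤ (m/10^6) Z (T + ε) ≤ Z T m (10^(-6) + 10^(-10)), a contradiction (1/810000 = 1.2345.. 10^(-6) > 10^(-6) + 10^(-10) + 0.05 10^(-6)). -/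
def BiCStmt : Prop := ∀ (m n : ℕ) (𝓑 : Finset ℕ) (W : ℕ → ℝ) (B : Fin m → Fin n → Finset ℕ) (Z T α ε : ℝ),
  1 ≤ m → 1 ≤ n → 0 < Z → 0 < T → 0 < α → (∀ b, 0 ≤ W b) → (∀ i t, B i t ⊆ 𝓑) →
  (m : ℝ) ≤ m * n * α → m * n * α ≤ 3 * (m : ℝ) → ε = T / (10 ^ 4 * (m * n ^ 2)) →
  ∑ b ∈ 𝓑, W b ≤ Z * (T + ε) →
  (∀ i t, Z * (α * T / 100 - ε) ≤ ∑ b ∈ B i t, W b ∧ ∑ b ∈ B i t, W b ≤ Z * (3 * α * T + ε)) →
  (∀ i t t', t ≠ t' → ∑ b ∈ B i t ∩ B i t', W b ≤ Z * (8 * α ^ 2 * T + ε)) →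
  ∃ b ∈ 𝓑, (m : ℝ) / 10 ^ 6 ≤ ((univ.filter (fun i : Fin m => ∃ t, b ∈ B i t)).card : ℝ)

/-- MAYNARD-TAO IN BINS: m bins with n forms a b + c each, the fraction 10^(-6) of the bins is occupied -/
def BinStmt : Prop := ∀ m : ℕ, 1 ≤ m → ∃ n : ℕ, 1 ≤ n ∧ ∃ X0 : ℝ, ∀ (X w V p0 : ℕ) (a c : Fin (m * n) → ℕ),
  X0 ≤ X → StC X w V p0 a c → (∀ l, BvC X p0 (a l) (c l)) →
  ∃ b ∈ Icc 1 X, (m : ℝ) / 10 ^ 6 ≤ ((univ.filter (fun i : Fin m => ∃ t : Fin n,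
    b ∈ BpC X (a (finProdFinEquiv (i, t))) (c (finProdFinEquiv (i, t))))).card : ℝ)

/-- Module CmC (150 lines; assembly). Uses: TnC, BiC, MaC, MbC, MhC, UpC, PrC. Proof. n, r, P, bd, 𝒜, α, T from TnC; K = m n. ε = T/(10^4 m n^2), η = min (ε/8) (α T/4). X0 = the maximum of the X0 of MaC, MbC, PrC (for η), MhC, UpC and such that 1/G^K ≤ ε/8 and X^(3/5) ≤ X ε/8 for X ≥ X0 (G ≥ (log R)^3, because 0 < dlV ≤ 1). Z = X G^K, 𝓑 = Icc 1 X, W b = WWC^2, B i t = BpC of the form (i, t).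
Mass: ∑ W ≤ Z (T + η) + X^(3/5) ≤ Z (T + ε) (G ≥ 1). With D = #BpC (log R)^4 G^(K-1), Z/50 ≤ D ≤ 3 Z: ∑_{B} W ≥ D (Jq l - η) - X ≥ (Z/50)(α T/2 - η) - X ≥ Z (α T/100 - ε), ≤ D (Jq l + η) + X ≤ Z (3 α T + ε); pairs: ≤ D ((8/3) Jq2 + η) + X ≤ Z (8 α^2 T + ε). BiC. -/
def CmCStmt : Prop := BinStmt

end Pool.Agent.Lib.BE
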