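import Pool.Agent.Lib.MP_9f2731_nt.CG.Bq.Spec
import Pool.Agent.Lib.BE.SpecA

/-!
PROJECT BE (note 5284, helper60). Part C: Bombieri-Vinogradov for the classes `c` mod `q` (ports of
Pool/Agent/Lib/MP_9f2731_nt/CG/Bq: there the class is 1; everything except the translation is already proved for an
arbitrary class l mod q d). `1 ≤ c ≤ 4 q`, `x = q X + c`.

RULES. Module X: file Pool/Agent/Lib/BE/C/X.lean, first line `import Pool.Agent.Lib.BE.SpecC`, then `namespace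
Pool.Agent.Lib.BE`, `open Finset Pool.Agent.Lib.BV`, `open Pool.Agent.Lib.MP_9f2731_nt.QL
Pool.Agent.Lib.MP_9f2731_nt.QL.Pw Pool.Agent.Lib.MP_9f2731_nt.CG Pool.Agent.Lib.MP_9f2731_nt.CG.Bq`, auxiliary lemmas
private with names starting with X_, final theorem `theorem tX : XStmt`; the statements listed under Uses are HYPOTHESES of
tX, in this order. All modules are independent.
-/

set_option autoImplicit false

namespace Pool.Agent.Lib.BE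

open Finset Pool.Agent.Lib.BV
open Pool.Agent.Lib.MP_9f2731_nt.QL
open Pool.Agent.Lib.MP_9f2731_nt.QL.Pw
open Pool.Agent.Lib.MP_9f2731_nt.CG
open Pool.Agent.Lib.MP_9f2731_nt.CG.Bq

/-- Module ApC (port of QL/Pw/ApG.lean). Uses: exactly the hypotheses of pApG there (QL.Pw.SwQStmt, and the prime number theorem statement Pnt in the form used there). Proof. As pApG: orthogonality gives (1/φ(q)) ∑_χ χ(c)⁻¹ ∑_{p ≤ x} χ(p); |χ(c)⁻¹| = 1 (c is prime to q), and for χ = 1 this factor is 1. -/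
def ApCStmt : Prop :=
  ∀ c3 : ℝ, 0 < c3 → ∃ x0 : ℝ, ∀ (x y : ℝ) (q c : ℕ), x0 ≤ x → 1 ≤ y → y ≤ (Real.log x) ^ ((1 : ℝ) / 100) →
    1 ≤ q → Real.log q ≤ y → c.Coprime q →
    (∀ (q1 : ℕ) [NeZero q1] (χ1 : DirichletCharacter ℂ q1), q1 ∣ q → 2 ≤ q1 → χ1.IsPrimitive → Nex c3 y χ1) →
    x / (2 * (q.totient : ℝ) * Real.log x) ≤
      (((Icc 1 ⌊x⌋₊).filter (fun p => p.Prime ∧ p ≡ c [MOD q])).card : ℝ)

/-- Module BtC (port of CG/Bq/BqT.lean). Uses: nothing. Proof. cls (Px x) (4⌊x⌋) D l is the number of the primes p ≤ x, p ≡ l mod D (⌊x⌋ = q X + c). A prime p ≤ q X + c with p ≡ c mod q is q b + c with 1 ≤ b ≤ X, or one of c, c - q, c - 2q, c - 3q (c ≤ 4 q; natural numbers), and p ≡ l mod q d iff p ≡ c mod q and p ≡ a mod d (Nat.modEq_and_modEq_iff_modEq_mul). So the two numbers differ by at most 4. -/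
def BtCStmt : Prop :=
  ∀ X q c d a l : ℕ, 1 ≤ q → 1 ≤ d → 1 ≤ c → c ≤ 4 * q → q.Coprime d → l ≡ c [MOD q] → l ≡ a [MOD d] →
    ‖cls (Px ((q * X + c : ℕ) : ℝ)) (4 * ⌊((q * X + c : ℕ) : ℝ)⌋₊) (q * d) l - (npaC X q c d a : ℂ)‖ ≤ 5 ∧
    ‖cls (Px ((q * X + c : ℕ) : ℝ)) (4 * ⌊((q * X + c : ℕ) : ℝ)⌋₊) q c - (npqC X q c : ℂ)‖ ≤ 5

/-- Module BhC (port of CG/Bq/BqH.lean). Uses: exactly the hypotheses of pBqH there (BV.TysStmt). Proof. As pBqH with x = q X + c ≤ 5 q X. -/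
def BhCStmt : Prop :=
  ∃ X0 : ℝ, ∀ (X q c : ℕ) (l : ℕ → ℕ), X0 ≤ X → 1 ≤ q → c ≤ 4 * q →
    Real.log q ≤ (Real.log X) ^ ((1 : ℝ) / 200) →
    ∑ d ∈ Icc 1 ⌊(X : ℝ) ^ ((9 : ℝ) / 20)⌋₊,
      ‖del (fun c => QX X < c) (Fx X ((q * X + c : ℕ) : ℝ)) (4 * ⌊((q * X + c : ℕ) : ℝ)⌋₊) (q * d) (l d)‖ ≤ TX X

/-- Module BsC (port of CG/Bq/BqS.lean). Uses: CG.Bq.BqRStmt, CG.Bq.BqLStmt, BhC, BtC, BV.TotStmt (the order of pBqS, with BhC, BtC in the places of BqH, BqT). Proof. As pBqS: x = q X + c ≤ 5 q X ≤ X^2, l(d) = the Chinese remainder of c mod q and a d mod d, coprime to q d (c is prime to q); l = c for the modulus q. The translation BtC costs 5 + 5/φ(d) ≤ 10 for each d, in total ≤ 10 X^(9/20) ≤ X e^(-2u). -/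
def BsCStmt : Prop :=
  ∀ c3 : ℝ, 0 < c3 → ∃ X0 : ℝ, ∀ X q c p0 : ℕ, X0 ≤ X → 1 ≤ q → 1 ≤ c → c ≤ 4 * q → c.Coprime q → p0.Prime →
    ¬ p0 ∣ q → Real.log q ≤ (Real.log X) ^ ((1 : ℝ) / 200) →
    (∀ (q1 : ℕ) [NeZero q1] (χ1 : DirichletCharacter ℂ q1), 2 ≤ q1 → Real.log q1 ≤ yX X → ¬ p0 ∣ q1 →
      χ1.IsPrimitive → Nex c3 (yX X) χ1) →
    ∀ a : ℕ → ℕ, (∀ d, (a d).Coprime d) →
      ∑ d ∈ (Icc 1 ⌊(X : ℝ) ^ ((9 : ℝ) / 20)⌋₊).filter (fun d => d.Coprime (q * p0)),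
        |npaC X q c d (a d) - npqC X q c / (d.totient : ℝ)| ≤
        X * Real.exp (-(Real.log X) ^ ((1 : ℝ) / 200))

/-- Bombieri-Vinogradov for the multiples of q and the class c mod q -/
def BvqCStmt : Prop :=
  ∃ ε1 : ℝ, 0 < ε1 ∧ ∀ w1 : ℕ, ∃ X0 : ℝ, ∀ X : ℕ, X0 ≤ X → ∃ p0 : ℕ, p0.Prime ∧ w1 < p0 ∧
    ∀ q c : ℕ, 1 ≤ q → ¬ p0 ∣ q → Real.log q ≤ (Real.log X) ^ ε1 → 1 ≤ c → c ≤ 4 * q → c.Coprime q →
      BvC X p0 q c

/-- Module BfC (port of CG/Bq/BqF.lean). Uses: QL.Pw.ExGStmt, ApC, BsC. Proof. As pBqF. First part of BvC: with x = q X + c the number of the primes p ≤ x, p ≡ c mod q, is ≥ x/(2 φ(q) log x), and npqC is at least this number minus 4 (the primes c, c - q, c - 2q, c - 3q are not counted): log x ≤ (3/2) log X for X large (q ≤ exp((log X)^(1/200)), c ≤ 4 q), so it is ≥ q X/(3 φ(q) log X) - 4 ≥ q X/(4 φ(q) log X) for X large. -/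
def BfCStmt : Prop := BvqCStmt

end Pool.Agent.Lib.BE
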