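import Pool.Agent.Lib.BE.SpecB
import Pool.Agent.Lib.BE.SpecC

/-!
PROJECT BE (note 5284, helper60). Part E: choice of the shifts, of the class modulo V, and the final theorem.

RULES. Module X: file Pool/Agent/Lib/BE/E/X.lean, first line `import Pool.Agent.Lib.BE.SpecE`, then `namespace
Pool.Agent.Lib.BE`, `open Finset`, `open Pool.Agent.Lib.MP_9f2731_nt.GP Pool.Agent.Lib.MP_9f2731_nt.CG
Pool.Agent.Lib.MP_9f2731_nt.CG.Mf`, auxiliary lemmas private with names starting with X_, final theorem `theorem tX :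
XStmt`; the statements listed under Uses are HYPOTHESES of tX, in this order. All modules are independent.
-/

set_option autoImplicit false

namespace Pool.Agent.Lib.BE

open Finset
open Pool.Agent.Lib.MP_9f2731_nt.GP
open Pool.Agent.Lib.MP_9f2731_nt.CG
open Pool.Agent.Lib.MP_9f2731_nt.CG.Mf

/-- Module HsC (100 lines; the shifts). Uses: nothing. Proof. By the pigeonhole principle infinitely many elements of H lie in one residue class modulo N! (Set.Infinite, finitely many classes). Choose h 0, h 1, … among them recursively with |h 0| ≥ 1 and |h (i+1)| > B |h i|, |h (i+1)| > |h i| (an infinite set of integers is unbounded in absolute value). For i < j then |x h j| ≥ |h j| > B |h i| ≥ |y h i|, for i > j the same with the roles exchanged. -/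
def HsCStmt : Prop := ∀ (N B : ℕ) (H : Set ℤ), H.Infinite → ∃ h : Fin N → ℤ, (∀ i, h i ∈ H) ∧
  (∀ i j, (N.factorial : ℤ) ∣ h i - h j) ∧
  ∀ i j, i ≠ j → ∀ x y : ℕ, 1 ≤ x → x ≤ B → 1 ≤ y → y ≤ B → (x : ℤ) * h j ≠ y * h i

/-- Module ApP (80 lines; one prime). Uses: nothing. Proof. p ≤ N: p ∣ N!, so all h i are congruent modulo p. If p divides no h i take ν = 0. If p divides some h i it divides all h i, so it divides no M' j (IsCoprime), and ν = 1 works: M' i + h i ≡ M' i. p > N: for each i at most one class ν mod p has p ∣ M' i ν + h i: if p ∣ M' i then p does not divide h i and there is none; otherwise M' i is invertible mod p.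
So at most N < p of the ν ∈ range p are excluded (Finset.card_biUnion_le). -/
def ApPStmt : Prop := ∀ (N p : ℕ) (M' : Fin N → ℕ) (h : Fin N → ℤ), p.Prime →
  (∀ i j, IsCoprime (M' i : ℤ) (h j)) → (∀ i j, (N.factorial : ℤ) ∣ h i - h j) →
  ∃ ν : ℕ, ∀ i, ¬ (p : ℤ) ∣ (M' i : ℤ) * ν + h i

/-- Module AdC (80 lines; the class modulo V). Uses: ApP. Proof. V is the product of its prime factors (squarefree). Chinese remainder theorem (Nat.chineseRemainderOfFinset, or induction on the set of primes) for the classes ν_p of ApP: there is ν0 with ν0 ≡ ν_p mod p for all p ∣ V; ν = V + (ν0 mod V). No prime p ∣ V divides M' i ν + h i, so it is coprime to V. -/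
def AdCStmt : Prop := ∀ (N V : ℕ) (M' : Fin N → ℕ) (h : Fin N → ℤ), 1 ≤ V → Squarefree V →
  (∀ i j, IsCoprime (M' i : ℤ) (h j)) → (∀ i j, (N.factorial : ℤ) ∣ h i - h j) →
  ∃ ν : ℕ, V ≤ ν ∧ ν < 2 * V ∧ ∀ i, IsCoprime ((M' i : ℤ) * ν + h i) (V : ℤ)

/-- the bound for the small primes -/
noncomputable def wx (X : ℕ) : ℕ := ⌊(Real.log (Real.log X)) ^ 4⌋₊

/-- the product of the primes up to wx X except p0 -/
noncomputable def Vx (X p0 : ℕ) : ℕ := ∏ p ∈ (range (wx X + 1)).filter (fun p => p.Prime ∧ p ≠ p0), p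

/-- Module VwC (120 lines; the modulus). Uses: nothing. Proof. V = Vx X p0 is a product of different primes: squarefree, a prime divides V iff it is ≤ wx X and different from p0. V ≤ primorial (wx X) ≤ 4^(wx X) (primorial_le_4_pow), so log V ≤ 2 (loglog X)^4: (1 + log V)^12 ≤ sqrt(log X) and log (V M') ≤ 2 (loglog X)^4 + log B ≤ (log X)^ε1 for X large (powers of y = loglog X against exp(ε1 y), exp(y/2): e.g. isLittleO_pow_exp_pos_mul_atTop).
V ≥ B: two different primes > B are ≤ wx X for X large, one of them is not p0 and divides V. -/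
def VwCStmt : Prop := ∀ (B : ℕ) (ε1 : ℝ), 0 < ε1 → ∃ X0 : ℝ, ∀ X p0 : ℕ, X0 ≤ X → p0.Prime →
  1 ≤ Vx X p0 ∧ Squarefree (Vx X p0) ∧ ¬ p0 ∣ Vx X p0 ∧ B ≤ Vx X p0 ∧ B ≤ wx X ∧
  (∀ p : ℕ, p.Prime → p ≤ wx X → p ∣ Vx X p0 * p0) ∧
  (Real.log (Real.log X)) ^ 2 ≤ wx X ∧ (1 + Real.log (Vx X p0)) ^ 12 ≤ Real.sqrt (Real.log X) ∧
  ∀ M' : ℕ, 1 ≤ M' → M' ≤ B → Real.log ((Vx X p0 * M' : ℕ) : ℝ) ≤ (Real.log X) ^ ε1

/-- Module StE (150 lines; the setup). Uses: VwC, AdC. Proof. B = 1 + ∑ M' l + ∑ |h l| + ∑_{l,l'} |M' l h l' - M' l' h l|, w1 = B, X0 from VwC. V = Vx X p0, ν from AdC (N = K), c l = (M' l ν + h l).toNat: M' l ν + h l ≥ V - |h l| ≥ 1 because V ≥ B > |h l|, and it is ≤ 2 V M' l + |h l| ≤ 4 V M' l.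
StC: ha: a prime p with p ∤ V p0 is > wx X ≥ B ≥ M' l, so it divides neither V nor M' l. hd: V M' j c k - V M' k c j = V (M' j h k - M' k h j) ≠ 0 with second factor of absolute value ≤ B < p. p0 ∤ V M' l: p0 > w1 = B ≥ M' l. Coprime: (c l, V) = 1 by AdC, (c l, M' l) = (h l, M' l) = 1. -/
def StEStmt : Prop := ∀ (K : ℕ) (M' : Fin K → ℕ) (h : Fin K → ℤ) (ε1 : ℝ), 0 < ε1 → (∀ l, 1 ≤ M' l) →
  (∀ i j, IsCoprime (M' i : ℤ) (h j)) → (∀ i j, (K.factorial : ℤ) ∣ h i - h j) →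
  (∀ i j, i ≠ j → (M' i : ℤ) * h j ≠ M' j * h i) →
  ∃ (w1 : ℕ) (X0 : ℝ), ∀ X p0 : ℕ, X0 ≤ X → p0.Prime → w1 < p0 → ∃ (ν : ℕ) (c : Fin K → ℕ),
    (∀ l, (c l : ℤ) = (M' l : ℤ) * ν + h l) ∧
    StC X (wx X) (Vx X p0) p0 (fun l => Vx X p0 * M' l) c ∧
    ∀ l, ¬ p0 ∣ Vx X p0 * M' l ∧ Real.log ((Vx X p0 * M' l : ℕ) : ℝ) ≤ (Real.log X) ^ ε1 ∧
      1 ≤ c l ∧ c l ≤ 4 * (Vx X p0 * M' l) ∧ (c l).Coprime (Vx X p0 * M' l)

open Classical in
/-- occupied bins for given forms: MAYNARD-TAO in bins for the forms M' l n + h l -/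
def ObStmt : Prop := ∀ m : ℕ, 1 ≤ m → ∃ n : ℕ, 1 ≤ n ∧ ∀ (M' : Fin (m * n) → ℕ) (h : Fin (m * n) → ℤ),
  (∀ l, 1 ≤ M' l) → (∀ i j, IsCoprime (M' i : ℤ) (h j)) → (∀ i j, ((m * n).factorial : ℤ) ∣ h i - h j) →
  (∀ i j, i ≠ j → (M' i : ℤ) * h j ≠ M' j * h i) →
  ∃ X0 : ℝ, ∀ X : ℕ, X0 ≤ X → ∃ N : ℕ, (X : ℝ) ^ ((1 : ℝ) / 5) ≤ N ∧
    (m : ℝ) / 10 ^ 6 ≤ ((univ.filter (fun i : Fin m => ∃ t : Fin n, ∃ p : ℕ, p.Prime ∧
      (p : ℤ) = (M' (finProdFinEquiv (i, t)) : ℤ) * N + h (finProdFinEquiv (i, t)))).card : ℝ)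

/-- Module ObC (100 lines). Uses: BinStmt, BvqCStmt, StE. Proof. n from BinStmt; ε1 from BvqC; w1, X1 from StE (for K = m n and this ε1), X2 from BvqC for w1, X3 from BinStmt. For X large: p0 from BvqC, ν, c from StE; BvC X p0 (V M' l) (c l) by BvqC; BinStmt gives b with b ∈ BpC X (V M' l) (c l) for some t, for at least m/10^6 of the i (so b > X^(1/5), because some l occurs: the number is > 0; RR X = X^(1/5)). N = V b + ν ≥ b: M' l N + h l = (V M' l) b + c l is prime. -/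
def ObCStmt : Prop := ObStmt

/-- THEOREM BE -/
def BeStmt : Prop := ∀ k : ℕ, 1 ≤ k → ∃ r : ℕ, ∀ (f : Fin r → Fin k → ℕ) (M : ℕ) (H : Set ℤ),
  (∀ t j, 1 ≤ f t j) → 1 ≤ M → H.Infinite → (∀ h ∈ H, IsCoprime (M : ℤ) h ∧ ∀ t j, IsCoprime (f t j : ℤ) h) →
  ∃ (T : Finset (Fin r)) (h : Fin k → ℤ), T.Nonempty ∧ Function.Injective h ∧ (∀ j, h j ∈ H) ∧
    ∀ N : ℕ, ∃ n : ℕ, N ≤ n ∧ M ∣ n ∧ ∀ j, ∃ p : ℕ, p.Prime ∧ (p : ℤ) = ((∏ t ∈ T, f t j : ℕ) : ℤ) * n + h j

/-- Module LnC (80 lines; lines). Uses: nothing. Proof. T = the t with w t = none (nonempty), F = the product over t ∉ T of f t ((w t).getD j0), where for t ∉ T the value (w t).getD j does not depend on j. lineMap w j t = j for t ∈ T. Finset.prod_filter_mul_prod_filter_not. The words lineMap w j, j < k, are different (at a wildcard). -/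
def LnCStmt : Prop := ∀ (k r : ℕ) (f : Fin r → Fin k → ℕ) (w : Fin r → Option (Fin k)), 1 ≤ k →
  (∀ t j, 1 ≤ f t j) → (∃ t, w t = none) →
  ∃ (T : Finset (Fin r)) (F : ℕ), T.Nonempty ∧ 1 ≤ F ∧ (∀ j, ∏ t, f t (lineMap w j t) = F * ∏ t ∈ T, f t j) ∧
    Function.Injective (fun j => lineMap w j)

/-- Module FiC (150 lines; the theorem). Uses: GP.DhjStmt, ObStmt, HsC, LnC. Proof. r from DhjStmt for k, δ = 1/10^6. m = k^r, n from ObStmt, words by finFunctionFinEquiv : (Fin r → Fin k) ≃ Fin (k^r). M' of the index finProdFinEquiv (i, t) is M ∏_s f s (w s), w = the word of i. B = the maximum (or sum) of the M' l; h from HsC with N = m n and B. The coprimality of M' i and h j: products (IsCoprime.mul_left, IsCoprime.prod_left). ObStmt: X0.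
For each X ≥ X0: N_X ≥ X^(1/5) and the set A of the occupied words has card ≥ k^r/10^6, so it contains a line w (DhjStmt); for every j there is t(j) with M' N_X + h prime for the index (word lineMap w j, t(j)). The pair (w, t : Fin k → Fin n) takes finitely many values, so one pair occurs for infinitely many X (and then N_X → ∞). For this pair: T, F from LnC, n' = M F N_X, h' j = h (finProdFinEquiv (finFunctionFinEquiv (lineMap w j), t j)):
M' N_X + h = (M F ∏_{t ∈ T} f t j) N_X + h' j = (∏_{t ∈ T} f t j) n' + h' j. h' is injective: the indices are different for different j, and h is injective (HsC with x = y = 1). -/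
def FiCStmt : Prop := BeStmt

end Pool.Agent.Lib.BE
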