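import Pool.Agent.Lib.BE.SpecE

/-!
PROJECT BE, part G (helper60, helper92): the general form, for arbitrary admissible linear forms (hand-in for MP_fb5b0b_nt),
and the form with pairs (hand-in for MP_9f2731_nt).

RULES. Module X: file Pool/Agent/Lib/BE/G/X.lean, first line `import Pool.Agent.Lib.BE.SpecG`, then `namespace
Pool.Agent.Lib.BE`, `open Finset`, `open Pool.Agent.Lib.MP_9f2731_nt.GP Pool.Agent.Lib.MP_9f2731_nt.CG
Pool.Agent.Lib.MP_9f2731_nt.CG.Mf`, auxiliary lemmas private with names starting with X_, final theorem `theorem tX :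
XStmt`; the statements listed under Uses are HYPOTHESES of tX, in this order. All modules are independent.
-/

set_option autoImplicit false

namespace Pool.Agent.Lib.BE

open Finset
open Pool.Agent.Lib.MP_9f2731_nt.GP
open Pool.Agent.Lib.MP_9f2731_nt.CG
open Pool.Agent.Lib.MP_9f2731_nt.CG.Mf

/-- Module StG (150 lines; port of BE/E/StE.lean and the last part of BE/E/AdC.lean). Uses: VwC. Proof. As StE, with ν from the Chinese remainder theorem for the classes cl p (p a prime factor of V = Vx X p0, which is squarefree): ν = V + (ν0 mod V), ν ≡ cl p mod p for all primes p ∣ V. (c l, V) = 1: a prime p ∣ V dividing c l = M' l ν + h l divides M' l (cl p) + h l. (c l, M' l) = 1: a prime p dividing M' l and c l divides h l, so it divides M' l (cl p) + h l. The last clause: a prime p ≤ wx X, p ≠ p0 divides Vx X p0 (VwC: p ∣ V p0). -/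
def StGStmt : Prop := ∀ (K : ℕ) (M' : Fin K → ℕ) (h : Fin K → ℤ) (cl : ℕ → ℕ) (ε1 : ℝ), 0 < ε1 → (∀ l, 1 ≤ M' l) →
  (∀ p : ℕ, p.Prime → ∀ l, ¬ (p : ℤ) ∣ (M' l : ℤ) * cl p + h l) →
  (∀ i j, i ≠ j → (M' i : ℤ) * h j ≠ M' j * h i) →
  ∃ (w1 : ℕ) (X0 : ℝ), ∀ X p0 : ℕ, X0 ≤ X → p0.Prime → w1 < p0 → ∃ (ν : ℕ) (c : Fin K → ℕ),
    (∀ l, (c l : ℤ) = (M' l : ℤ) * ν + h l) ∧
    StC X (wx X) (Vx X p0) p0 (fun l => Vx X p0 * M' l) c ∧
    (∀ l, ¬ p0 ∣ Vx X p0 * M' l ∧ Real.log ((Vx X p0 * M' l : ℕ) : ℝ) ≤ (Real.log X) ^ ε1 ∧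
      1 ≤ c l ∧ c l ≤ 4 * (Vx X p0 * M' l) ∧ (c l).Coprime (Vx X p0 * M' l)) ∧
    ∀ p : ℕ, p.Prime → p ≤ wx X → p ≠ p0 → ν ≡ cl p [MOD p]

open Classical in
/-- occupied bins for arbitrary admissible forms a l n + b l, with n in prescribed classes modulo the primes ≤ P -/
def ObGStmt : Prop := ∀ m : ℕ, 1 ≤ m → ∃ n : ℕ, 1 ≤ n ∧ ∀ (M' : Fin (m * n) → ℕ) (h : Fin (m * n) → ℤ)
  (cl : ℕ → ℕ) (P : ℕ), (∀ l, 1 ≤ M' l) →
  (∀ p : ℕ, p.Prime → ∀ l, ¬ (p : ℤ) ∣ (M' l : ℤ) * cl p + h l) →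
  (∀ i j, i ≠ j → (M' i : ℤ) * h j ≠ M' j * h i) →
  ∃ X0 : ℝ, ∀ X : ℕ, X0 ≤ X → ∃ N : ℕ, (X : ℝ) ^ ((1 : ℝ) / 5) ≤ N ∧
    (∀ p : ℕ, p.Prime → p ≤ P → N ≡ cl p [MOD p]) ∧
    (m : ℝ) / 10 ^ 6 ≤ ((univ.filter (fun i : Fin m => ∃ t : Fin n, ∃ p : ℕ, p.Prime ∧
      (p : ℤ) = (M' (finProdFinEquiv (i, t)) : ℤ) * N + h (finProdFinEquiv (i, t)))).card : ℝ)

/-- Module ObG (130 lines; port of BE/E/ObC.lean). Uses: BinStmt, BvqCStmt, VwC, StG. Proof. As ObC, with BvqC for max w1 P (so p0 > P), and X so large that P ≤ wx X (VwC with B = P). N = V b + ν with V = Vx X p0: for a prime p ≤ P: p ∣ V (p ≤ wx X, p ≠ p0, VwC), so N ≡ ν ≡ cl p mod p (last clause of StG). -/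
def ObGmStmt : Prop := ObGStmt

/-- the line theorem -/
def LineStmt : Prop := ∀ k : ℕ, 1 ≤ k → ∃ r n : ℕ, 1 ≤ n ∧ ∀ (a : (Fin r → Fin k) → Fin n → ℕ)
  (b : (Fin r → Fin k) → Fin n → ℤ) (cl : ℕ → ℕ) (P : ℕ), (∀ w s, 1 ≤ a w s) →
  (∀ p : ℕ, p.Prime → ∀ w s, ¬ (p : ℤ) ∣ (a w s : ℤ) * cl p + b w s) →
  (∀ w s w' s', (w, s) ≠ (w', s') → (a w s : ℤ) * b w' s' ≠ a w' s' * b w s) →
  ∃ (v : Fin r → Option (Fin k)) (s : Fin k → Fin n), (∃ t, v t = none) ∧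
    ∀ N0 : ℕ, ∃ N : ℕ, N0 ≤ N ∧ (∀ p : ℕ, p.Prime → p ≤ P → N ≡ cl p [MOD p]) ∧
      ∀ j, ∃ p : ℕ, p.Prime ∧ (p : ℤ) = (a (lineMap v j) (s j) : ℤ) * N + b (lineMap v j) (s j)

/-- Module LnG (120 lines; port of the first part of BE/E/FiC.lean). Uses: GP.DhjStmt, ObGStmt. Proof. r from DhjStmt for k, δ = 1/10^6; m = k^r, n from ObGStmt; words by finFunctionFinEquiv : (Fin r → Fin k) ≃ Fin (k^r); the index (w, s) is finProdFinEquiv (finFunctionFinEquiv w, s), M' and h of this index are a w s and b w s. For every X ≥ X0 the set of the occupied words has card ≥ k^r/10^6, so it contains a line v, and for every j there is s(j) with a N_X + b prime. The pair (v, s) takes finitely many values, so one pair occurs for infinitely many X, and N_X ≥ X^(1/5) → ∞. -/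
def LnGStmt : Prop := LineStmt

/-- the line theorem, final form -/
def DkStmt : Prop := ∀ k : ℕ, 1 ≤ k → ∃ r K : ℕ, ∀ (a b : (Fin r → Fin k) → Fin K → ℤ), (∀ w s, 0 < a w s) →
  (∀ w s w' s', a w s = a w' s' → b w s = b w' s' → w = w' ∧ s = s') →
  (∀ p : ℕ, p.Prime → ∃ n : ℕ, ∀ w s, ¬ (p : ℤ) ∣ a w s * n + b w s) →
  ∃ (v : Fin r → Option (Fin k)) (s : Fin k → Fin K), (∃ t, v t = none) ∧
    {n : ℕ | ∀ j, ∃ p : ℕ, p.Prime ∧
      (p : ℤ) = a (fun t => (v t).getD j) (s j) * n + b (fun t => (v t).getD j) (s j)}.Infinite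

/-- Module DkG (80 lines). Uses: LineStmt. Proof. LineStmt with (a w s).toNat, b, cl p = the n of the hypothesis for the prime p (choice; 0 if p is not prime), P = 0. lineMap v j = fun t => (v t).getD j by definition. A prime dividing a w s and b w s would divide a w s n + b w s: a w s and b w s are coprime. So a b' = a' b implies a ∣ a', a' ∣ a, a = a' (positive), b = b'. Infinite: Set.infinite_of_forall_exists_gt. -/
def DkGStmt : Prop := DkStmt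

/-! ### Pairs instead of shifts (helper92) -/

/-- Module HsP (120 lines; compare BE/E/HsC.lean). Uses: nothing. Proof. By the pigeonhole principle (finitely many classes of h modulo N!) there is a class for which infinitely many quotients h/m remain. Choose pairs one after the other: s j must have a quotient different from 0 and from the finitely many numbers (y/x) q_i, 1 ≤ x, y ≤ B, i < j (q_i the quotient of s i). Then x m_i h_j ≠ y m_j h_i for all i ≠ j (if i > j use the roles exchanged: y q_i ≠ x q_j). -/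
def HsPStmt : Prop := ∀ (N B : ℕ) (S : Set (ℕ × ℤ)), (∀ s ∈ S, 1 ≤ s.1) →
  ((fun s : ℕ × ℤ => (s.2 : ℚ) / s.1) '' S).Infinite →
  ∃ s : Fin N → ℕ × ℤ, (∀ i, s i ∈ S) ∧ (∀ i j, (N.factorial : ℤ) ∣ (s i).2 - (s j).2) ∧
  ∀ i j, i ≠ j → ∀ x y : ℕ, 1 ≤ x → x ≤ B → 1 ≤ y → y ≤ B →
    (((s i).1 * x : ℕ) : ℤ) * (s j).2 ≠ (((s j).1 * y : ℕ) : ℤ) * (s i).2

/-- THEOREM BE for pairs (m, h) -/
def BePStmt : Prop := ∀ k : ℕ, 1 ≤ k → ∃ r : ℕ, ∀ (f : Fin r → Fin k → ℕ) (M : ℕ) (S : Set (ℕ × ℤ)),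
  (∀ t j, 1 ≤ f t j) → 1 ≤ M → (∀ s ∈ S, 1 ≤ s.1) → ((fun s : ℕ × ℤ => (s.2 : ℚ) / s.1) '' S).Infinite →
  (∀ s ∈ S, IsCoprime (M : ℤ) s.2 ∧ (∀ t j, IsCoprime (f t j : ℤ) s.2) ∧ ∀ s' ∈ S, IsCoprime (s'.1 : ℤ) s.2) →
  ∃ (T : Finset (Fin r)) (s : Fin k → ℕ × ℤ), T.Nonempty ∧ (∀ j, s j ∈ S) ∧
    (∀ i j, i ≠ j → ((s i).1 : ℤ) * (s j).2 ≠ (s j).1 * (s i).2) ∧
    ∀ N : ℕ, ∃ n : ℕ, N ≤ n ∧ M ∣ n ∧
      ∀ j, ∃ p : ℕ, p.Prime ∧ (p : ℤ) = (((s j).1 * ∏ t ∈ T, f t j : ℕ) : ℤ) * n + (s j).2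

/-- Module FiP (150 lines; port of BE/E/FiC.lean). Uses: GP.DhjStmt, ObStmt, HsP, LnC. Proof. As FiC: the index (w, t) has the pair (m, h) = s (index) from HsP with N = m n and B = the maximum (or sum) of the M ∏_s f s (w s); M' = m (M ∏_s f s (w s)). Coprimality of M' i and h j: m_i and h_j by the hypothesis on S. The determinants: HsP with x = M ∏ f of the word of i, y = that of j. m (M F P_j) N_X + h = (m P_j) n' + h with n' = M F N_X; different quotients: HsP with x = y = 1 (B ≥ 1). -/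
def FiPStmt : Prop := BePStmt

end Pool.Agent.Lib.BE
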