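import Pool.Agent.Lib.BE.SpecG

/-!
PROJECT BE, part R (helper60): the same with almost primes at ALL places (rough values; ports of CG/Mf/MfA, MfC, MfG).

RULES. Module X: file Pool/Agent/Lib/BE/R/X.lean, first line `import Pool.Agent.Lib.BE.SpecR` (plus already proved files of
CG/Ma, CG/Mf, MP_aa9ae4_nt if a private lemma is needed; copy private lemmas instead if possible), then `namespace
Pool.Agent.Lib.BE`, `open Finset`, `open Pool.Agent.Lib.MP_9f2731_nt.GP Pool.Agent.Lib.MP_9f2731_nt.GP.Sv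
Pool.Agent.Lib.MP_9f2731_nt.QL Pool.Agent.Lib.MP_9f2731_nt.QL.Sw Pool.Agent.Lib.MP_9f2731_nt.CG
Pool.Agent.Lib.MP_9f2731_nt.CG.Ma Pool.Agent.Lib.MP_9f2731_nt.CG.Mf`, auxiliary lemmas private with names starting with X_,
final theorem `theorem tX : XStmt`; the statements listed under Uses are HYPOTHESES of tX, in this order. All modules are
independent.
-/

set_option autoImplicit false

namespace Pool.Agent.Lib.BE

open Finset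
open Pool.Agent.Lib.MP_9f2731_nt.GP
open Pool.Agent.Lib.MP_9f2731_nt.GP.Sv
open Pool.Agent.Lib.MP_9f2731_nt.QL
open Pool.Agent.Lib.MP_9f2731_nt.QL.Sw
open Pool.Agent.Lib.MP_9f2731_nt.CG
open Pool.Agent.Lib.MP_9f2731_nt.CG.Ma
open Pool.Agent.Lib.MP_9f2731_nt.CG.Mf

/-- Module MaR (port of CG/Mf/MfA.lean; compare BE/B/MaC.lean, which is the case P0 = 1). Uses: S1C, CG.Ma.PfBStmt, CG.Mf.MfTStmt. Proof. As pMfA (MfT with K = 0 as in MaC). -/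
def MaRStmt : Prop := ∀ (K r : ℕ) (P : Fin r → Pf) (bd : Fin r → ℝ) (𝒜 : Finset (Fin K → Fin r)),
  Vda P bd 𝒜 → ∀ η : ℝ, 0 < η → ∃ X0 : ℝ, ∀ (X w V p0 P0 c1 : ℕ) (a c : Fin K → ℕ), X0 ≤ X →
  StC X w V p0 a c → (P0 = 1 ∨ P0 = p0) →
  |∑ b ∈ (Icc 1 X).filter (fun b => b ≡ c1 [MOD P0]), WWC (V * p0) X P 𝒜 a c b ^ 2
    - X / P0 * (GG (V * p0) X ^ K * Iq P 𝒜)| ≤
    X / P0 * (GG (V * p0) X ^ K * η) + (X : ℝ) ^ ((3 : ℝ) / 5)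

/-- Module McR (port of CG/Mf/MfC.lean; the mass on the multiples of one prime). Uses: S1C, CG.Ma.PfBStmt, CG.Ma.AfPStmt, CG.Mf.MfTStmt. Proof. As pMfC: p does not divide a l, so the b with p ∣ a l b + c l form one class modulo p; p does not divide a j b + c j for j ≠ l (otherwise p ∣ dist (a j c l) (a l c j)). MfT with K = 0 as in MaC. -/
def McRStmt : Prop := ∀ (K r : ℕ) (P : Fin r → Pf) (bd : Fin r → ℝ) (𝒜 : Finset (Fin K → Fin r)),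
  Vda P bd 𝒜 → ∃ C1 X0 : ℝ, 0 < C1 ∧ ∀ (X w V p0 p : ℕ) (a c : Fin K → ℕ) (l : Fin K), X0 ≤ X →
  StC X w V p0 a c → p.Prime → ¬ p ∣ V * p0 → (p : ℝ) ≤ RR X →
  ∑ b ∈ (Icc 1 X).filter (fun b => p ∣ a l * b + c l), WWC (V * p0) X P 𝒜 a c b ^ 2 ≤
    X / p * (GG (V * p0) X ^ K *
      (C1 * ((Real.log p / Real.log (RR X)) ^ 2 + 1 / Real.sqrt (Real.log X)))) + (X : ℝ) ^ ((3 : ℝ) / 5)

open Classical in
/-- Module MgR (port of CG/Mf/MfG.lean; the rough part carries the mass). Uses: MaR, McR, CG.Mf.MfDStmt. Proof. As pMfG. A prime p ≤ X^κ with p ∣ a j b + c j does not divide V (V ∣ a j, (c j, V) = 1), so p = p0 or p ∤ V p0. The b with p0 ∣ a j b + c j lie in one class modulo p0 (p0 does not divide a j). -/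
def MgRStmt : Prop := ∀ (K r : ℕ) (P : Fin r → Pf) (bd : Fin r → ℝ) (𝒜 : Finset (Fin K → Fin r)),
  Vda P bd 𝒜 → ∀ η : ℝ, 0 < η → ∃ (κ : ℝ) (w1 : ℕ) (X0 : ℝ), 0 < κ ∧ ∀ (X w V p0 : ℕ) (a c : Fin K → ℕ),
  X0 ≤ X → w1 < p0 → StC X w V p0 a c → (∀ l, (c l).Coprime V ∧ ¬ p0 ∣ a l) →
  ∑ b ∈ (Icc 1 X).filter (fun b => ¬ ∀ j, Rgh ((X : ℝ) ^ κ) (a j * b + c j)), WWC (V * p0) X P 𝒜 a c b ^ 2 ≤
    X * (GG (V * p0) X ^ K * η)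

/-- Module BiR (150 lines; port of BE/B/BiC.lean). Uses: nothing. Proof. As tBiC. If no b ∈ 𝓡 has E(b) ≥ m/10^6 then ∑_{𝓑} W E ≤ (m/10^6) ∑_{𝓡} W + m ∑_{𝓑 \ 𝓡} W ≤ Z T m (10^(-6) + 10^(-10) + 10^(-8)), but ∑ W E ≥ Z T m (1/810000 - 1/(2 10^7)) as in BiC, and 1.2345 - 0.05 > 1.0101. -/
def BiRStmt : Prop := ∀ (m n : ℕ) (𝓑 𝓡 : Finset ℕ) (W : ℕ → ℝ) (B : Fin m → Fin n → Finset ℕ) (Z T α ε : ℝ),
  1 ≤ m → 1 ≤ n → 0 < Z → 0 < T → 0 < α → (∀ b, 0 ≤ W b) → 𝓡 ⊆ 𝓑 → (∀ i t, B i t ⊆ 𝓑) →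
  (m : ℝ) ≤ m * n * α → m * n * α ≤ 3 * (m : ℝ) → ε = T / (10 ^ 4 * (m * n ^ 2)) →
  ∑ b ∈ 𝓑, W b ≤ Z * (T + ε) → ∑ b ∈ 𝓑 \ 𝓡, W b ≤ Z * (T / 10 ^ 8) →
  (∀ i t, Z * (α * T / 100 - ε) ≤ ∑ b ∈ B i t, W b ∧ ∑ b ∈ B i t, W b ≤ Z * (3 * α * T + ε)) →
  (∀ i t t', t ≠ t' → ∑ b ∈ B i t ∩ B i t', W b ≤ Z * (8 * α ^ 2 * T + ε)) →
  ∃ b ∈ 𝓡, (m : ℝ) / 10 ^ 6 ≤ ((univ.filter (fun i : Fin m => ∃ t, b ∈ B i t)).card : ℝ)

/-- MAYNARD-TAO IN BINS with rough values of all forms -/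
def BinRStmt : Prop := ∀ m : ℕ, 1 ≤ m → ∃ n : ℕ, 1 ≤ n ∧ ∃ (κ : ℝ) (w1 : ℕ) (X0 : ℝ), 0 < κ ∧
  ∀ (X w V p0 : ℕ) (a c : Fin (m * n) → ℕ), X0 ≤ X → w1 < p0 → StC X w V p0 a c →
  (∀ l, BvC X p0 (a l) (c l)) → (∀ l, (c l).Coprime V ∧ ¬ p0 ∣ a l) →
  ∃ b ∈ Icc 1 X, (∀ l, Rgh ((X : ℝ) ^ κ) (a l * b + c l)) ∧
    (m : ℝ) / 10 ^ 6 ≤ ((univ.filter (fun i : Fin m => ∃ t : Fin n,
      b ∈ BpC X (a (finProdFinEquiv (i, t))) (c (finProdFinEquiv (i, t))))).card : ℝ)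

/-- Module CmR (170 lines; port of BE/B/CmC.lean). Uses: TnC, BiR, MaC, MbC, MhC, UpC, PrC, MgR. Proof. As tCmC, with κ, w1 from MgR for η = T/10^8 and 𝓡 = the b ∈ Icc 1 X with Rgh for all forms: 𝓑 \ 𝓡 = the filter of MgR. -/
def CmRStmt : Prop := BinRStmt

open Classical in
/-- occupied bins for arbitrary admissible forms, all values almost primes -/
def ObRStmt : Prop := ∀ m : ℕ, 1 ≤ m → ∃ n C : ℕ, 1 ≤ n ∧ ∀ (M' : Fin (m * n) → ℕ) (h : Fin (m * n) → ℤ)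
  (cl : ℕ → ℕ) (P : ℕ), (∀ l, 1 ≤ M' l) →
  (∀ p : ℕ, p.Prime → ∀ l, ¬ (p : ℤ) ∣ (M' l : ℤ) * cl p + h l) →
  (∀ i j, i ≠ j → (M' i : ℤ) * h j ≠ M' j * h i) →
  ∃ X0 : ℝ, ∀ X : ℕ, X0 ≤ X → ∃ N : ℕ, (X : ℝ) ^ ((1 : ℝ) / 5) ≤ N ∧
    (∀ p : ℕ, p.Prime → p ≤ P → N ≡ cl p [MOD p]) ∧
    (∀ l, ∃ q : ℕ, 1 ≤ q ∧ (q : ℤ) = (M' l : ℤ) * N + h l ∧ q.primeFactorsList.length ≤ C) ∧
    (m : ℝ) / 10 ^ 6 ≤ ((univ.filter (fun i : Fin m => ∃ t : Fin n, ∃ p : ℕ, p.Prime ∧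
      (p : ℤ) = (M' (finProdFinEquiv (i, t)) : ℤ) * N + h (finProdFinEquiv (i, t)))).card : ℝ)

/-- Module ObR (170 lines; port of BE/G/ObG.lean). Uses: BinRStmt, BvqCStmt, VwC, StG. Proof. As tObG, with p0 > w1 of BinR too, StG for min ε1 (1/2) instead of ε1 ((log X)^(min) ≤ (log X)^ε1 for log X ≥ 1), C = ⌈2/κ⌉. q = (V M' l) b + c l ≤ 5 V M' l X ≤ 5 exp((log X)^(1/2)) X ≤ X^2 for X large; all prime factors of q are > X^κ (Rgh), so X^(κ t) ≤ q ≤ X^2 for t = the length of primeFactorsList (the product of the list is q; List.pow_card_le_prod or induction), t ≤ 2/κ. -/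
def ObRmStmt : Prop := ObRStmt

/-- the line theorem with almost primes -/
def LineRStmt : Prop := ∀ k : ℕ, 1 ≤ k → ∃ r n C : ℕ, 1 ≤ n ∧ ∀ (a : (Fin r → Fin k) → Fin n → ℕ)
  (b : (Fin r → Fin k) → Fin n → ℤ) (cl : ℕ → ℕ) (P : ℕ), (∀ w s, 1 ≤ a w s) →
  (∀ p : ℕ, p.Prime → ∀ w s, ¬ (p : ℤ) ∣ (a w s : ℤ) * cl p + b w s) →
  (∀ w s w' s', (w, s) ≠ (w', s') → (a w s : ℤ) * b w' s' ≠ a w' s' * b w s) →
  ∃ (v : Fin r → Option (Fin k)) (s : Fin k → Fin n), (∃ t, v t = none) ∧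
    ∀ N0 : ℕ, ∃ N : ℕ, N0 ≤ N ∧ (∀ p : ℕ, p.Prime → p ≤ P → N ≡ cl p [MOD p]) ∧
      (∀ w s', ∃ q : ℕ, 1 ≤ q ∧ (q : ℤ) = (a w s' : ℤ) * N + b w s' ∧ q.primeFactorsList.length ≤ C) ∧
      ∀ j, ∃ p : ℕ, p.Prime ∧ (p : ℤ) = (a (lineMap v j) (s j) : ℤ) * N + b (lineMap v j) (s j)

/-- Module LnR (120 lines; port of BE/G/LnG.lean). Uses: GP.DhjStmt, ObRStmt. Proof. As tLnG. -/
def LnRStmt : Prop := LineRStmt

/-- the line theorem with almost primes, final form -/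
def DkRStmt : Prop := ∀ k : ℕ, 1 ≤ k → ∃ r K C : ℕ, ∀ (a b : (Fin r → Fin k) → Fin K → ℤ), (∀ w s, 0 < a w s) →
  (∀ w s w' s', a w s = a w' s' → b w s = b w' s' → w = w' ∧ s = s') →
  (∀ p : ℕ, p.Prime → ∃ n : ℕ, ∀ w s, ¬ (p : ℤ) ∣ a w s * n + b w s) →
  ∃ (v : Fin r → Option (Fin k)) (s : Fin k → Fin K), (∃ t, v t = none) ∧
    {n : ℕ | (∀ j, ∃ p : ℕ, p.Prime ∧
      (p : ℤ) = a (fun t => (v t).getD j) (s j) * n + b (fun t => (v t).getD j) (s j)) ∧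
      ∀ w s', ∃ q : ℕ, 1 ≤ q ∧ (q : ℤ) = a w s' * n + b w s' ∧ q.primeFactorsList.length ≤ C}.Infinite

/-- Module DkR (80 lines; port of BE/G/DkG.lean). Uses: LineRStmt. Proof. As tDkG. -/
def DkRmStmt : Prop := DkRStmt

/-- CHAINS with ratio exactly g, almost primes at all places -/
def ChStmt : Prop := ∀ k : ℕ, 1 ≤ k → ∃ L C : ℕ, ∀ (g M : ℕ) (S : Set (ℕ × ℤ)), 1 ≤ g → 1 ≤ M →
  (∀ s ∈ S, 1 ≤ s.1) → ((fun s : ℕ × ℤ => (s.2 : ℚ) / s.1) '' S).Infinite →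
  (∀ s ∈ S, IsCoprime (M : ℤ) s.2 ∧ IsCoprime (g : ℤ) s.2 ∧ ∀ s' ∈ S, IsCoprime (s'.1 : ℤ) s.2) →
  ∃ (m : ℕ → ℕ) (h : ℕ → ℤ) (x₀ d : ℕ), 1 ≤ d ∧ x₀ + (k - 1) * d ≤ L ∧ (∀ j, j ≤ L → (m j, h j) ∈ S) ∧
    (∀ i j, i < j → j ≤ L → (m i : ℤ) * h j ≠ m j * h i) ∧
    {n : ℕ | M ∣ n ∧ ∃ x : ℕ → ℕ, (∀ j, j ≤ L → (x j : ℤ) = (g : ℤ) ^ j * m j * n + h j ∧ 1 ≤ x j ∧
        (x j).primeFactorsList.length ≤ C) ∧
      ∀ i, i < k → (x (x₀ + i * d)).Prime}.Infinite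

/-- Module ChR (200 lines). Uses: LineRStmt, HsP, ApP. Proof. r, n, C from LineRStmt, L = (k - 1) r. |w| = ∑_t (w t : ℕ) ≤ L. N = k^r n, e : (Fin r → Fin k) × Fin n ≃ Fin N (Fintype.equivFinOfCardEq, or finProdFinEquiv with finFunctionFinEquiv). HsP for N, B = M g^L: pairs s i = (m, h). a w s' = m (M g^|w|), b w s' = h for i = e (w, s'). cl p from ApP for each prime p (M' i = m_i (M g^|w|); IsCoprime by the hypothesis on S: IsCoprime.mul_left, IsCoprime.pow_left; cl p = 0 if p is not prime), P = 0.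
The condition a b' ≠ a' b is HsP with x = M g^|w|, y = M g^|w'| ≤ B. For the line v (T = the t with v t = none, nonempty): d = card T, x₀ = ∑ over t ∉ T of the value of v t: |lineMap v i| = x₀ + i d, so x₀ + (k - 1) d ≤ L. For j ≤ L choose the index: if j = x₀ + i d with i < k: (lineMap v i, s i); otherwise a word w with |w| = j (exists: j ≤ (k - 1) r, induction on r; d ≥ 1 makes i unique) and s' = 0 (n ≥ 1). The indices for different j are different (|w| = j), so the quotients are different (HsP with x = y = 1; B ≥ 1).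
n' = M N': x j = a N' + b = g^j m_j n' + h_j. n' takes infinitely many values (Set.infinite_of_forall_exists_gt; M ≥ 1). -/
def ChRStmt : Prop := ChStmt

end Pool.Agent.Lib.BE
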